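import Pool.Agent.Lib.MP_2b9f9a_al.Eigen

/-!
# The convolution Lie ring, and the theorem for an automorphism of prime order
-/

set_option autoImplicit false

namespace Pool.Agent.Lib.MP_2b9f9a_al

/-- Functions `ZMod p → L`, with the convolution bracket. -/
def Conv (p : ℕ) (L : Type*) : Type _ := ZMod p → L

variable {p : ℕ} [Fact p.Prime] {L : Type*} [LieRing L]

instance : AddCommGroup (Conv p L) := inferInstanceAs (AddCommGroup (ZMod p → L))

theorem conv_ext {u v : Conv p L} (h : ∀ c : ZMod p, u c = v c) : u = v := funext h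

omit [Fact p.Prime] in
@[simp] theorem conv_add (u v : Conv p L) (c : ZMod p) : (u + v) c = u c + v c := rfl
omit [Fact p.Prime] in
@[simp] theorem conv_zero (c : ZMod p) : (0 : Conv p L) c = 0 := rfl
omit [Fact p.Prime] in
@[simp] theorem conv_neg (u : Conv p L) (c : ZMod p) : (-u) c = -(u c) := rfl
omit [Fact p.Prime] in
@[simp] theorem conv_sub (u v : Conv p L) (c : ZMod p) : (u - v) c = u c - v c := rfl
omit [Fact p.Prime] in
@[simp] theorem conv_nsmul (n : ℕ) (u : Conv p L) (c : ZMod p) : (n • u) c = n • (u c) := rfl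

/-- evaluation -/
def evalHom (c : ZMod p) : Conv p L →+ L where
  toFun u := u c
  map_zero' := rfl
  map_add' _ _ := rfl

omit [Fact p.Prime] in
theorem conv_sum {ι : Type*} (s : Finset ι) (f : ι → Conv p L) (c : ZMod p) :
    (∑ i ∈ s, f i) c = ∑ i ∈ s, f i c := map_sum (evalHom c) f s

instance : Bracket (Conv p L) (Conv p L) := ⟨fun u v c => ∑ a : ZMod p, ⁅u a, v (c - a)⁆⟩

theorem conv_lie (u v : Conv p L) (c : ZMod p) : ⁅u, v⁆ c = ∑ a : ZMod p, ⁅u a, v (c - a)⁆ := rfl

instance : LieRing (Conv p L) where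
  add_lie u v w := by
    apply conv_ext; intro c
    simp only [conv_lie, conv_add, add_lie, Finset.sum_add_distrib]
  lie_add u v w := by
    apply conv_ext; intro c
    simp only [conv_lie, conv_add, lie_add, Finset.sum_add_distrib]
  lie_self u := by
    apply conv_ext; intro c
    rw [conv_lie, conv_zero]
    apply Finset.sum_involution (fun a _ => c - a)
    · intro a _
      rw [sub_sub_cancel, ← lie_skew (u a) (u (c - a))]; abel
    · intro a _ hne heq
      apply hne
      rw [heq, lie_self]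
    · intro a _; exact Finset.mem_univ _
    · intro a _; simp
  leibniz_lie u v w := by
    apply conv_ext; intro c
    rw [conv_add, conv_lie, conv_lie, conv_lie]
    have e1 : ∀ a : ZMod p, ⁅u a, ⁅v, w⁆ (c - a)⁆ =
        ∑ b : ZMod p, ⁅u a, ⁅v b, w (c - a - b)⁆⁆ := by
      intro a; rw [conv_lie, lie_sum]
    have e3 : ∀ b : ZMod p, ⁅v b, ⁅u, w⁆ (c - b)⁆ =
        ∑ a : ZMod p, ⁅v b, ⁅u a, w (c - a - b)⁆⁆ := by
      intro b; rw [conv_lie, lie_sum]
      apply Finset.sum_congr rfl
      intro a _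
      have e : c - b - a = c - a - b := by abel
      rw [e]
    have e2 : ∑ s : ZMod p, ⁅⁅u, v⁆ s, w (c - s)⁆ =
        ∑ a : ZMod p, ∑ b : ZMod p, ⁅⁅u a, v b⁆, w (c - a - b)⁆ := by
      have : ∀ s : ZMod p, ⁅⁅u, v⁆ s, w (c - s)⁆ =
          ∑ a : ZMod p, ⁅⁅u a, v (s - a)⁆, w (c - s)⁆ := by
        intro s; rw [conv_lie, sum_lie]
      simp only [this]
      rw [Finset.sum_comm]
      apply Finset.sum_congr rfl
      intro a _
      refine (Fintype.sum_equiv (Equiv.addLeft a) _ _ (fun b => ?_)).symm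
      simp only [Equiv.coe_addLeft, add_sub_cancel_left]
      have e : c - a - b = c - (a + b) := by abel
      rw [e]
    rw [e2]
    simp only [e1, e3]
    rw [Finset.sum_comm (f := fun b a => ⁅v b, ⁅u a, w (c - a - b)⁆⁆), ← Finset.sum_add_distrib]
    apply Finset.sum_congr rfl
    intro a _
    rw [← Finset.sum_add_distrib]
    apply Finset.sum_congr rfl
    intro b _
    rw [leibniz_lie (u a) (v b) (w (c - a - b))]

/-- the shift operator -/
def shift (p : ℕ) [Fact p.Prime] (L : Type*) [LieRing L] : AddMonoid.End (Conv p L) where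
  toFun u := fun c => u (c - 1)
  map_zero' := rfl
  map_add' _ _ := rfl

theorem shift_apply (u : Conv p L) (c : ZMod p) : shift p L u c = u (c - 1) := rfl

theorem shift_pow_apply (n : ℕ) (u : Conv p L) (c : ZMod p) :
    ((shift p L) ^ n) u c = u (c - n) := by
  induction n generalizing u c with
  | zero => simp
  | succ n ih =>
    rw [pow_succ, end_mul_apply, ih, shift_apply]
    push_cast
    congr 1
    ring

theorem chi_shift_apply (a : ZMod p) (u : Conv p L) (c : ZMod p) :
    chi (shift p L) a u c = u (c - a) := by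
  unfold chi
  rw [shift_pow_apply]
  simp

/-- lift of an endomorphism -/
def lift (p : ℕ) [Fact p.Prime] (g : AddMonoid.End L) : AddMonoid.End (Conv p L) where
  toFun u := fun c => g (u c)
  map_zero' := by apply conv_ext; intro c; exact map_zero g
  map_add' u v := by apply conv_ext; intro c; exact map_add g _ _

theorem lift_apply (g : AddMonoid.End L) (u : Conv p L) (c : ZMod p) :
    lift p g u c = g (u c) := rfl

theorem lift_one : lift p (1 : AddMonoid.End L) = 1 := rfl

theorem lift_mul (f g : AddMonoid.End L) : lift p (f * g) = lift p f * lift p g := rfl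

theorem lift_pow (f : AddMonoid.End L) (n : ℕ) : lift p (f ^ n) = lift p f ^ n := by
  induction n with
  | zero => simp [lift_one]
  | succ n ih => rw [pow_succ, pow_succ, lift_mul, ih]

theorem lift_lie {g : AddMonoid.End L} (hg : ∀ x y, g ⁅x, y⁆ = ⁅g x, g y⁆) (u v : Conv p L) :
    lift p g ⁅u, v⁆ = ⁅lift p g u, lift p g v⁆ := by
  apply conv_ext; intro c
  rw [lift_apply, conv_lie, conv_lie, map_sum]
  apply Finset.sum_congr rfl
  intro a _
  rw [hg]; rfl

theorem conv_datum {φ : AddMonoid.End L} (hφ : ∀ x y, φ ⁅x, y⁆ = ⁅φ x, φ y⁆)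
    (hφp : φ ^ p = 1) (hfix : ∀ x, φ x = x → x = 0) :
    Datum p (shift p L) (lift p φ) where
  Slie u v := by
    apply conv_ext; intro c
    rw [conv_lie, shift_apply, conv_lie]
    refine (Fintype.sum_equiv (Equiv.addRight (1 : ZMod p)) _ _ (fun a => ?_)).symm
    simp only [Equiv.coe_addRight]
    rw [shift_apply, add_sub_cancel_right]
    have : c - 1 - a = c - (a + 1) := by ring
    rw [this]
  Sp := by
    refine AddMonoidHom.ext fun u => conv_ext fun c => ?_
    exact (shift_pow_apply p u c).trans (by simp; rfl)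
  φlie := lift_lie hφ
  φp := by rw [← lift_pow, hφp, lift_one]
  comm := by
    apply AddMonoidHom.ext; intro u; apply conv_ext; intro c
    rfl
  fix u hu := by
    apply conv_ext; intro c
    apply hfix
    have := congrArg (evalHom c) hu
    exact this

/-- the embedding of `L` -/
def emb (p : ℕ) [Fact p.Prime] (x : L) : Conv p L := fun c => if c = 0 then x else 0

theorem emb_apply (x : L) (c : ZMod p) : emb p x c = if c = 0 then x else 0 := rfl

theorem emb_lie (x y : L) : ⁅emb p x, emb p y⁆ = emb p ⁅x, y⁆ := by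
  apply conv_ext; intro c
  rw [conv_lie, Finset.sum_eq_single (0 : ZMod p)]
  · rw [emb_apply, emb_apply, emb_apply, if_pos rfl, sub_zero]
    split_ifs <;> simp
  · intro a _ ha
    rw [emb_apply, if_neg ha, zero_lie]
  · intro h; exact absurd (Finset.mem_univ _) h

theorem emb_add (x y : L) : emb p (x + y) = emb p x + emb p y := by
  apply conv_ext; intro c
  rw [conv_add, emb_apply, emb_apply, emb_apply]
  split_ifs <;> simp

theorem emb_neg (x : L) : emb p (-x) = - emb p x := by
  apply conv_ext; intro c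
  rw [conv_neg, emb_apply, emb_apply]
  split_ifs <;> simp

/-- the operator `p - N` -/
def dOp (p : ℕ) [Fact p.Prime] (L : Type*) [LieRing L] : AddMonoid.End (Conv p L) :=
  (p : AddMonoid.End (Conv p L)) - nrm p (shift p L)

theorem natCast_end_apply {M : Type*} [AddCommGroup M] (n : ℕ) (x : M) :
    (n : AddMonoid.End M) x = n • x := by
  simp

theorem dOp_emb (x : L) : dOp p L (emb p x) 1 = -x := by
  unfold dOp
  have h1 : ((p : AddMonoid.End (Conv p L)) - nrm p (shift p L)) (emb p x) =
      p • emb p x - nrm p (shift p L) (emb p x) := by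
    rw [← natCast_end_apply]; rfl
  rw [h1, conv_sub, conv_nsmul, emb_apply]
  have hp : 1 < p := (Fact.out : p.Prime).one_lt
  have : Fact (1 < p) := ⟨hp⟩
  rw [if_neg one_ne_zero, smul_zero, zero_sub]
  congr 1
  unfold nrm
  rw [sum_apply, conv_sum, Finset.sum_eq_single (1 : ZMod p)]
  · rw [chi_shift_apply, sub_self, emb_apply, if_pos rfl]
  · intro a _ ha
    rw [chi_shift_apply, emb_apply, if_neg (sub_ne_zero.mpr (Ne.symm ha))]
  · intro h; exact absurd (Finset.mem_univ _) h

theorem dOp_sq {φ : AddMonoid.End (Conv p L)} (h : Datum p (shift p L) φ) :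
    dOp p L * dOp p L = (p : AddMonoid.End (Conv p L)) * dOp p L := by
  have hn : nrm p (shift p L) * nrm p (shift p L) =
      (p : AddMonoid.End (Conv p L)) * nrm p (shift p L) := by
    conv_lhs => rw [show nrm p (shift p L) * nrm p (shift p L) =
      nrm p (shift p L) * ∑ a : ZMod p, chi (shift p L) a from rfl]
    rw [Finset.mul_sum, Finset.sum_congr rfl (fun a _ => nrm_mul_chi h a), Finset.sum_const,
      Finset.card_univ, ZMod.card, nsmul_eq_mul]
  unfold dOp
  rw [sub_mul, mul_sub, mul_sub, hn]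
  have hc : nrm p (shift p L) * (p : AddMonoid.End (Conv p L)) =
      (p : AddMonoid.End (Conv p L)) * nrm p (shift p L) :=
    (Nat.cast_commute p (nrm p (shift p L))).eq.symm
  rw [hc]
  abel

theorem dOp_lie {φ : AddMonoid.End (Conv p L)} (h : Datum p (shift p L) φ) (u v : Conv p L) :
    ⁅dOp p L u, v⁆ = dOp p L ⁅u, v⁆ := by
  unfold dOp
  have h1 : ∀ u : Conv p L, ((p : AddMonoid.End (Conv p L)) - nrm p (shift p L)) u =
      p • u - nrm p (shift p L) u := by
    intro u
    rw [← natCast_end_apply]; rfl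
  rw [h1, h1, sub_lie, nsmul_lie]
  congr 1
  unfold nrm
  rw [sum_apply, sum_apply, sum_lie]
  exact Finset.sum_congr rfl (fun a _ => chi_lie h a u v)

theorem lie_dOp {φ : AddMonoid.End (Conv p L)} (h : Datum p (shift p L) φ) (u v : Conv p L) :
    ⁅u, dOp p L v⁆ = dOp p L ⁅u, v⁆ := by
  rw [← lie_skew, dOp_lie h, ← map_neg, lie_skew]

/-- an additive abelian group with a fixed-point-free automorphism `φ`, `φ ^ p = 1`, has no
`p`-torsion. -/
theorem no_torsion {M : Type*} [AddCommGroup M] {φ : AddMonoid.End M} (hφp : φ ^ p = 1)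
    (hfix : ∀ x, φ x = x → x = 0) (x : M) (hx : p • x = 0) : x = 0 := by
  have hp : p.Prime := Fact.out
  -- `(φ - 1) ^ p x = 0`
  have hinj : ∀ y : M, (φ - 1) y = 0 → y = 0 := by
    intro y hy
    apply hfix
    have : (φ - 1) y = φ y - y := rfl
    rw [this] at hy
    exact sub_eq_zero.mp hy
  have hinj' : ∀ n : ℕ, ∀ y : M, ((φ - 1) ^ n) y = 0 → y = 0 := by
    intro n
    induction n with
    | zero => intro y hy; simpa using hy
    | succ n ih =>
      intro y hy
      rw [pow_succ, end_mul_apply] at hy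
      exact hinj _ (ih _ hy)
  apply hinj' p
  have hcomm : Commute φ (-1 : AddMonoid.End M) := (Commute.one_right φ).neg_right
  obtain ⟨r, hr⟩ := hcomm.exists_add_pow_prime_eq hp
  rw [sub_eq_add_neg, hr]
  have e1 : (φ ^ p + (-1 : AddMonoid.End M) ^ p + ↑p * φ * (-1) * r) x =
      x + ((-1 : AddMonoid.End M) ^ p) x + (↑p * φ * (-1) * r : AddMonoid.End M) x := by
    rw [hφp]; rfl
  rw [e1]
  have e2 : (↑p * φ * (-1) * r : AddMonoid.End M) x = 0 := by
    have : (↑p * φ * (-1) * r : AddMonoid.End M) = (φ * (-1) * r) * ↑p := by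
      rw [mul_assoc, mul_assoc, mul_assoc]
      exact (Nat.cast_commute p _).eq
    rw [this, end_mul_apply, natCast_end_apply, hx, map_zero]
  rw [e2, add_zero]
  rcases hp.eq_two_or_odd' with h2 | hodd
  · subst h2
    have : ((-1 : AddMonoid.End M) ^ 2) x = x := by
      rw [neg_one_sq]; rfl
    rw [this, ← two_nsmul, hx]
  · rw [hodd.neg_one_pow]
    have : (-1 : AddMonoid.End M) x = -x := rfl
    rw [this, add_neg_cancel]

/-- `δ_d` and descending series -/
theorem delta_series {M : Type*} [LieRing M] (W : ℕ → Set M)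
    (hW : ∀ k x y, x ∈ W k → y ∈ W k → ⁅x, y⁆ ∈ W (k+1)) (d : ℕ) :
    ∀ (k : ℕ) (x : Idx d → M), (∀ i, x i ∈ W k) → delta d x ∈ W (k + d) := by
  induction d with
  | zero => intro k x hx; exact hx pt
  | succ d ih =>
    intro k x hx
    rw [delta_succ]
    have := ih (k+1) _ (fun i => hW k _ _ (hx (pr i false)) (hx (pr i true)))
    rwa [show k + 1 + d = k + (d + 1) by ring] at this

/-- The main theorem for an automorphism of prime order. -/
theorem lie_prime (q d : ℕ) (φ : AddMonoid.End L) (hφ : ∀ x y, φ ⁅x, y⁆ = ⁅φ x, φ y⁆)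
    (hφp : φ ^ p = 1) (hfix : ∀ x, φ x = x → x = 0)
    {Γ : Type*} [Group Γ] [Fintype Γ] (hΓ : Fintype.card Γ ≤ q)
    (ρ : Γ →* AddMonoid.End L)
    (τ : Γ → ZMod p) (hτ : ∀ g, φ * ρ g = ρ g * φ ^ (τ g).val) (hτ1 : ∀ g, τ g = 1 → g = 1)
    (C : LieSubalgebra ℤ L) (hC : ∀ x, x ∈ C ↔ ∀ g, ρ g x = x)
    (hd : LieAlgebra.derivedSeries ℤ C d = ⊥) :
    LieAlgebra.derivedSeries ℤ L (NBound q d) = ⊥ := by
  classical
  have hD := conv_datum (p := p) hφ hφp hfix
  have htL : ∀ x : L, p • x = 0 → x = 0 := no_torsion hφp hfix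
  have htM : ∀ u : Conv p L, p • u = 0 → u = 0 := by
    intro u hu
    apply conv_ext; intro c
    apply htL
    have := congrArg (evalHom c) hu
    exact this
  -- the series
  set E : ℕ → Set L := fun k => {x | ∃ hx : x ∈ C, (⟨x, hx⟩ : C) ∈ LieAlgebra.derivedSeries ℤ C k}
    with hE
  set W : ℕ → Set (Conv p L) := fun k => {u | ∀ c : ZMod p, u c ∈ E k} with hW
  have hE0 : ∀ k, (0 : L) ∈ E k := fun k => ⟨C.zero_mem, (LieAlgebra.derivedSeries ℤ C k).zero_mem⟩
  have hEadd : ∀ k x y, x ∈ E k → y ∈ E k → x + y ∈ E k := by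
    rintro k x y ⟨hx, hx'⟩ ⟨hy, hy'⟩
    exact ⟨C.add_mem hx hy, (LieAlgebra.derivedSeries ℤ C k).add_mem hx' hy'⟩
  have hElie : ∀ k x y, x ∈ E k → y ∈ E k → ⁅x, y⁆ ∈ E (k+1) := by
    rintro k x y ⟨hx, hx'⟩ ⟨hy, hy'⟩
    refine ⟨C.lie_mem hx hy, ?_⟩
    have h1 : (⟨⁅x, y⁆, C.lie_mem hx hy⟩ : C) = ⁅(⟨x, hx⟩ : C), (⟨y, hy⟩ : C)⁆ := rfl
    rw [h1]
    unfold LieAlgebra.derivedSeries
    rw [LieAlgebra.derivedSeriesOfIdeal_succ]
    exact LieSubmodule.lie_mem_lie hx' hy'
  have hEsum : ∀ k (f : ZMod p → L), (∀ a, f a ∈ E k) → ∑ a, f a ∈ E k := by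
    intro k f hf
    exact Finset.sum_induction f (fun x => x ∈ E k) (hEadd k) (hE0 k) (fun a _ => hf a)
  have hWlie : ∀ k x y, x ∈ W k → y ∈ W k → ⁅x, y⁆ ∈ W (k+1) := by
    intro k u v hu hv c
    rw [conv_lie]
    exact hEsum (k+1) _ (fun a => hElie k _ _ (hu a) (hv (c - a)))
  have hSel : Sel (Finset.univ.image τ) d (eig (shift p L) (lift p φ) : Fam (ZMod p) (Conv p L)) := by
    apply sel_of_action hD htM (1 : Γ) (fun g u => lift p (ρ g) u) τ
    · intro u; rw [map_one]; rfl
    · intro g a u hu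
      rw [mem_eig] at hu ⊢
      have h1 : lift p φ * lift p (ρ g) = lift p (ρ g) * (lift p φ) ^ (τ g).val := by
        rw [← lift_mul, hτ, lift_mul, lift_pow]
      rw [← end_mul_apply, h1, end_mul_apply, eig_pow hD hu, ← chi_mul hD, mul_comm]
      apply conv_ext; intro c
      rw [chi_shift_apply, lift_apply, lift_apply, chi_shift_apply]
    · exact hτ1
    · intro x
      have h1 : ∀ i, (∑ g, lift p (ρ g) (x i)) ∈ W 0 := by
        intro i c
        have hmem : (∑ g, lift p (ρ g) (x i)) c ∈ C := by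
          rw [hC]
          intro g
          rw [conv_sum, map_sum]
          refine Fintype.sum_equiv (Equiv.mulLeft g) _ _ (fun g' => ?_)
          rw [lift_apply, lift_apply, Equiv.coe_mulLeft, map_mul]
          rfl
        exact ⟨hmem, by simp⟩
      have h2 := delta_series W hWlie d 0 _ h1
      rw [Nat.zero_add] at h2
      apply conv_ext; intro c
      obtain ⟨h3, h4⟩ := h2 c
      rw [hd, LieSubmodule.mem_bot] at h4
      exact congrArg Subtype.val h4
  have hcard : (Finset.univ.image τ).card ≤ q := by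
    refine Finset.card_image_le.trans ?_
    rwa [Finset.card_univ]
  have hsolv := sel_solvable (Finset.univ.image τ) q hcard d _ (eig_isSub hD) hSel
  -- descent to `L`
  have hdesc : ∀ k, ∀ x ∈ LieAlgebra.derivedSeries ℤ L k,
      ∃ m : ℕ, p ^ m • dOp p L (emb p x) ∈
        tot (der (eig (shift p L) (lift p φ) : Fam (ZMod p) (Conv p L)) k) := by
    intro k
    induction k with
    | zero =>
      intro x _
      refine ⟨0, ?_⟩
      rw [pow_zero, one_smul]
      unfold dOp
      rw [← sum_proj hD, sum_apply]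
      exact sum_mem (fun c _ => mem_tot (proj_mem hD c _))
    | succ k ih =>
      intro x hx
      unfold LieAlgebra.derivedSeries at hx
      rw [LieAlgebra.derivedSeriesOfIdeal_succ] at hx
      rw [← LieSubmodule.mem_toSubmodule, LieSubmodule.lieIdeal_oper_eq_linear_span'] at hx
      induction hx using Submodule.span_induction with
      | mem x hx =>
        obtain ⟨y, hy, z, hz, rfl⟩ := hx
        obtain ⟨m1, h1⟩ := ih y hy
        obtain ⟨m2, h2⟩ := ih z hz
        refine ⟨m1 + m2 + 1, ?_⟩
        have h3 := tot_lie h1 h2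
        rw [nsmul_lie, lie_nsmul, dOp_lie hD, lie_dOp hD, emb_lie, ← end_mul_apply,
          dOp_sq hD, end_mul_apply, natCast_end_apply, smul_smul, smul_smul] at h3
        rw [pow_succ, pow_add]
        exact h3
      | zero =>
        refine ⟨0, ?_⟩
        have : emb p (0 : L) = 0 := by
          apply conv_ext; intro c; rw [emb_apply]; simp
        rw [this, map_zero, smul_zero]
        exact zero_mem _
      | add x y _ _ hx hy =>
        obtain ⟨m1, h1⟩ := hx
        obtain ⟨m2, h2⟩ := hy
        refine ⟨m1 + m2, ?_⟩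
        rw [emb_add, map_add, smul_add]
        apply add_mem
        · rw [pow_add, mul_comm, mul_smul]
          exact nsmul_mem h1 _
        · rw [pow_add, mul_smul]
          exact nsmul_mem h2 _
      | smul n x _ hx =>
        obtain ⟨m1, h1⟩ := hx
        refine ⟨m1, ?_⟩
        have : emb p (n • x) = n • emb p x := by
          have hom : ∃ f : L →+ Conv p L, ∀ x, f x = emb p x :=
            ⟨{ toFun := emb p, map_zero' := by
                apply conv_ext; intro c; rw [emb_apply]; simp
               map_add' := emb_add }, fun _ => rfl⟩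
          obtain ⟨f, hf⟩ := hom
          rw [← hf, ← hf, map_zsmul]
        rw [this, map_zsmul, smul_comm]
        exact zsmul_mem h1 _
  rw [eq_bot_iff]
  intro x hx
  obtain ⟨m, hm⟩ := hdesc _ x hx
  have htot : tot (der (eig (shift p L) (lift p φ) : Fam (ZMod p) (Conv p L)) (NBound q d)) = ⊥ := by
    rw [eq_bot_iff]
    unfold tot
    apply iSup_le
    intro a y hy
    rw [AddSubgroup.mem_bot]
    exact hsolv a y hy
  rw [htot, AddSubgroup.mem_bot] at hm
  have h1 := congrArg (evalHom (1 : ZMod p)) hm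
  have h2 : p ^ m • (dOp p L (emb p x) (1 : ZMod p)) = 0 := h1
  rw [dOp_emb] at h2
  have h3 : ∀ (m : ℕ) (y : L), p ^ m • y = 0 → y = 0 := by
    intro m
    induction m with
    | zero => intro y hy; simpa using hy
    | succ m ih =>
      intro y hy
      rw [pow_succ, mul_smul] at hy
      exact htL y (ih _ hy)
  have h4 := h3 m _ h2
  rw [LieSubmodule.mem_bot]
  exact neg_eq_zero.mp h4

end Pool.Agent.Lib.MP_2b9f9a_al
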