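import Mathlib

/-!
# Finite `p`-groups, `p` odd, without noncyclic abelian subgroups of order `p ^ 2`, are cyclic
-/

set_option autoImplicit false

namespace Pool.Agent.Lib.MP_2b9f9a_al

/-- `1 + a + ... + a ^ (p - 1) ≡ p (mod p ^ 2)` for `a ≡ 1 (mod p)`, `p` odd. -/
theorem geom_mod {p : ℕ} (hp : p.Prime) (hp2 : p ≠ 2) {a : ℕ} (ha : (p : ℤ) ∣ (a : ℤ) - 1) :
    ∃ w : ℤ, ((∑ l ∈ Finset.range p, a ^ l : ℕ) : ℤ) = p * (1 + p * w) := by
  obtain ⟨c, hc⟩ := ha
  have h1 : ∀ l : ℕ, ((p : ℤ) ^ 2) ∣ (a : ℤ) ^ l - (1 + l * ((a : ℤ) - 1)) := by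
    intro l
    induction l with
    | zero => simp
    | succ l ih =>
      obtain ⟨e, he⟩ := ih
      refine ⟨e * a + l * c ^ 2, ?_⟩
      have h2 : (a : ℤ) ^ l = 1 + l * ((a : ℤ) - 1) + p ^ 2 * e := by linarith
      have h3 : (a : ℤ) = 1 + p * c := by linarith
      rw [pow_succ, h2]
      push_cast
      rw [h3]
      ring
  choose e he using h1
  have h4 : ((∑ l ∈ Finset.range p, a ^ l : ℕ) : ℤ) =
      ∑ l ∈ Finset.range p, (1 + (l : ℤ) * ((a : ℤ) - 1) + p ^ 2 * e l) := by
    push_cast
    apply Finset.sum_congr rfl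
    intro l _
    have := he l
    linarith
  rw [h4, Finset.sum_add_distrib, Finset.sum_add_distrib, ← Finset.mul_sum, ← Finset.sum_mul]
  have h5 : (∑ l ∈ Finset.range p, (l : ℤ)) * 2 = p * (p - 1) := by
    have := Finset.sum_range_id_mul_two p
    have h6 : ((∑ l ∈ Finset.range p, l : ℕ) : ℤ) * 2 = ((p * (p - 1) : ℕ) : ℤ) := by
      exact_mod_cast this
    rw [Nat.cast_mul, Nat.cast_sub hp.one_lt.le] at h6
    push_cast at h6
    exact h6
  obtain ⟨k, hk⟩ := hp.odd_of_ne_two hp2
  have h7 : (∑ l ∈ Finset.range p, (l : ℤ)) = p * k := by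
    have : (p : ℤ) = 2 * k + 1 := by exact_mod_cast hk
    have h8 : (∑ l ∈ Finset.range p, (l : ℤ)) * 2 = (p * k) * 2 := by
      rw [h5]
      have : (p : ℤ) - 1 = 2 * k := by linarith
      rw [this]; ring
    linarith
  refine ⟨k * c + ∑ l ∈ Finset.range p, e l, ?_⟩
  rw [h7, hc]
  simp only [Finset.sum_const, Finset.card_range, nsmul_eq_mul, mul_one]
  ring

theorem isCyclic_of_pGroup {p : ℕ} [Fact p.Prime] (hp2 : p ≠ 2) (n : ℕ) :
    ∀ (P : Type) [Group P] [Finite P], Nat.card P = p ^ n →
      (∀ x y : P, x ^ p = 1 → y ^ p = 1 → x * y = y * x → x ≠ 1 → y ∈ Subgroup.zpowers x) →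
      IsCyclic P := by
  have hp : p.Prime := Fact.out
  induction n with
  | zero =>
    intro P _ _ hcard _
    rw [pow_zero, Nat.card_eq_one_iff_unique] at hcard
    have := hcard.1
    infer_instance
  | succ n ih =>
    intro P _ _ hcard hP
    rcases Nat.eq_zero_or_pos n with rfl | hn
    · rw [zero_add, pow_one] at hcard
      exact isCyclic_of_prime_card hcard
    obtain ⟨k, rfl⟩ := Nat.exists_eq_succ_of_ne_zero hn.ne'
    simp only [Nat.succ_eq_add_one] at *
    obtain ⟨M, hM⟩ := Sylow.exists_subgroup_card_pow_prime (G := P) p (n := k + 1)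
      (by rw [hcard]; exact pow_dvd_pow p (by omega))
    have hindex : M.index = p := by
      have h := M.card_mul_index
      rw [hM, hcard] at h
      have h' : p ^ (k + 1) * M.index = p ^ (k + 1) * p := by rw [h, pow_succ]
      exact Nat.eq_of_mul_eq_mul_left (pow_pos hp.pos _) h'
    have hnormal : M.Normal := by
      apply Subgroup.normal_of_index_eq_minFac_card
      rw [hindex, hcard, Nat.Prime.pow_minFac hp (by omega)]
    have hMcyc : IsCyclic M := by
      apply ih M hM
      intro x y hx hy hxy hx1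
      have := hP x y (by exact_mod_cast congrArg Subtype.val hx)
        (by exact_mod_cast congrArg Subtype.val hy) (by exact_mod_cast congrArg Subtype.val hxy)
        (by intro h; apply hx1; exact Subtype.ext h)
      rw [Subgroup.mem_zpowers_iff] at this ⊢
      obtain ⟨j, hj⟩ := this
      exact ⟨j, Subtype.ext (by simpa using hj)⟩
    obtain ⟨⟨m, hmM⟩, hm⟩ := hMcyc.exists_generator
    have hmgen : ∀ g ∈ M, ∃ j : ℤ, m ^ j = g := by
      intro g hg
      obtain ⟨j, hj⟩ := Subgroup.mem_zpowers_iff.mp (hm ⟨g, hg⟩)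
      exact ⟨j, by simpa using congrArg Subtype.val hj⟩
    have hmord : orderOf m = p ^ (k + 1) := by
      have h1 : orderOf (⟨m, hmM⟩ : M) = Nat.card M := orderOf_eq_card_of_forall_mem_zpowers hm
      rw [← hM, ← h1, Subgroup.orderOf_mk]
    have hmgen' : ∀ g ∈ M, ∃ j : ℕ, m ^ j = g := by
      intro g hg
      obtain ⟨j, hj⟩ := hmgen g hg
      have : g ∈ Subgroup.zpowers m := Subgroup.mem_zpowers_iff.mpr ⟨j, hj⟩
      rw [← mem_powers_iff_mem_zpowers] at this
      exact this
    obtain ⟨x, hx⟩ : ∃ x, x ∉ M := by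
      by_contra hcon
      simp only [not_exists, not_not] at hcon
      have : M = ⊤ := by ext g; simp [hcon g]
      rw [this, Subgroup.index_top] at hindex
      exact hp.one_lt.ne hindex
    have hxp : x ^ p ∈ M := by
      have := Subgroup.pow_index_mem M x
      rwa [hindex] at this
    obtain ⟨a, ha⟩ := hmgen' (x⁻¹ * m * x) (by
      have := hnormal.conj_mem m hmM x⁻¹
      simpa using this)
    obtain ⟨t, ht⟩ := hmgen' _ hxp
    -- conjugation
    have hconj : ∀ j : ℕ, (x ^ j)⁻¹ * m * x ^ j = m ^ (a ^ j) := by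
      intro j
      induction j with
      | zero => simp
      | succ j ihj =>
        have : (x ^ (j+1))⁻¹ * m * x ^ (j+1) = x⁻¹ * ((x ^ j)⁻¹ * m * x ^ j) * x := by
          rw [pow_succ]; group
        rw [this, ihj]
        have h2 : x⁻¹ * m ^ (a ^ j) * x = (x⁻¹ * m * x) ^ (a ^ j) := by
          have := conj_pow (i := a ^ j) (a := x⁻¹) (b := m)
          rw [inv_inv] at this
          exact this.symm
        rw [h2, ← ha, ← pow_mul, pow_succ, mul_comm]
    have hap : (p : ℤ) ∣ (a : ℤ) - 1 := by
      have h1 := hconj p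
      rw [← ht] at h1
      have h2 : (m ^ t)⁻¹ * m * m ^ t = m := by group
      rw [h2] at h1
      have h3 : a ^ p ≡ 1 [MOD orderOf m] := by
        rw [← pow_eq_pow_iff_modEq, pow_one]; exact h1.symm
      rw [hmord] at h3
      have h4 : a ^ p ≡ 1 [MOD p] := h3.of_dvd (dvd_pow_self p (by omega))
      have h5 : ((a : ZMod p)) ^ p = 1 := by
        have := (ZMod.natCast_eq_natCast_iff _ _ _).mpr h4
        simpa using this
      rw [ZMod.pow_card] at h5
      have h6 : ((a - 1 : ℤ) : ZMod p) = 0 := by push_cast; rw [h5]; ring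
      rwa [ZMod.intCast_zmod_eq_zero_iff_dvd] at h6
    by_cases hpt : p ∣ t
    · exfalso
      obtain ⟨t', rfl⟩ := hpt
      obtain ⟨w, hw⟩ := geom_mod hp hp2 hap
      set Sj : ℕ → ℕ := fun j => ∑ l ∈ Finset.range j, a ^ l with hSj
      have hcop : IsCoprime (1 + (p : ℤ) * w) ((p : ℤ) ^ k) := by
        apply IsCoprime.pow_right
        refine ⟨1, -w, by ring⟩
      obtain ⟨u, v, huv⟩ := hcop
      set i : ℤ := -(t' * u) with hi
      have hpow : ∀ j : ℕ, (x * m ^ i) ^ j = x ^ j * m ^ (i * (Sj j : ℤ)) := by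
        intro j
        induction j with
        | zero => simp [hSj]
        | succ j ihj =>
          rw [pow_succ', ihj]
          have h1 : m ^ i * x ^ j = x ^ j * m ^ (i * (a : ℤ) ^ j) := by
            have h2 : (x ^ j)⁻¹ * m ^ i * x ^ j = ((x ^ j)⁻¹ * m * x ^ j) ^ i := by
              have := conj_zpow (i := i) (a := (x ^ j)⁻¹) (b := m)
              rw [inv_inv] at this
              exact this.symm
            rw [hconj, ← zpow_natCast m (a ^ j), ← zpow_mul] at h2
            have h3 : m ^ i * x ^ j = x ^ j * ((x ^ j)⁻¹ * m ^ i * x ^ j) := by group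
            rw [h3, h2]
            congr 2
            push_cast
            ring
          have h4 : x * m ^ i * (x ^ j * m ^ (i * (Sj j : ℤ))) =
              x * (m ^ i * x ^ j) * m ^ (i * (Sj j : ℤ)) := by group
          rw [h4, h1]
          have h5 : x * (x ^ j * m ^ (i * (a : ℤ) ^ j)) * m ^ (i * (Sj j : ℤ)) =
              (x * x ^ j) * (m ^ (i * (a : ℤ) ^ j) * m ^ (i * (Sj j : ℤ))) := by group
          rw [h5, ← zpow_add, ← pow_succ']
          congr 2
          simp only [hSj, Finset.sum_range_succ]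
          push_cast
          ring
      have hyp : (x * m ^ i) ^ p = 1 := by
        rw [hpow p, ← ht, ← zpow_natCast, ← zpow_add]
        have h1 : ((p * t' : ℕ) : ℤ) + i * (Sj p : ℤ) = (p ^ (k+1) : ℕ) * (t' * v) := by
          have h2 : (Sj p : ℤ) = p * (1 + p * w) := hw
          rw [h2, hi]
          push_cast
          have h3 : (1 : ℤ) = u * (1 + p * w) + v * p ^ k := huv.symm
          have h4 : (t' : ℤ) = t' * (u * (1 + p * w) + v * p ^ k) := by rw [← h3]; ring
          linear_combination (p : ℤ) * h4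
        rw [h1, zpow_mul, zpow_natCast, ← hmord, pow_orderOf_eq_one, one_zpow]
      have hyM : x * m ^ i ∉ M := by
        intro h
        apply hx
        have h1 : m ^ i ∈ M := M.zpow_mem hmM i
        exact (M.mul_mem_cancel_right h1).mp h
      set z : P := m ^ (p ^ k) with hz
      have hzp : z ^ p = 1 := by
        rw [hz, ← pow_mul, ← pow_succ, ← hmord, pow_orderOf_eq_one]
      have hz1 : z ≠ 1 := by
        intro h
        rw [hz, ← orderOf_dvd_iff_pow_eq_one, hmord] at h
        have := Nat.le_of_dvd (pow_pos hp.pos _) h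
        exact absurd this (not_le.mpr (Nat.pow_lt_pow_right hp.one_lt (by omega)))
      have hza : z ^ a = z := by
        obtain ⟨c, hc⟩ := hap
        have h1 : (a : ℤ) = 1 + p * c := by linarith
        rw [← zpow_natCast, h1, zpow_add, zpow_one, zpow_mul, zpow_natCast, hzp, one_zpow, mul_one]
      have hxz : x⁻¹ * z * x = z := by
        have h1 : x⁻¹ * z * x = (x⁻¹ * m * x) ^ (p ^ k) := by
          have := conj_pow (i := p ^ k) (a := x⁻¹) (b := m)
          rw [inv_inv] at this
          exact this.symm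
        rw [h1, ← ha, ← pow_mul, mul_comm, pow_mul, ← hz, hza]
      have hcomm : z * (x * m ^ i) = (x * m ^ i) * z := by
        have h1 : z * x = x * z := by
          have : z * x = x * (x⁻¹ * z * x) := by group
          rw [this, hxz]
        have h2 : z * m ^ i = m ^ i * z := by
          rw [hz, ← zpow_natCast, ← zpow_add, ← zpow_add, add_comm]
        rw [← mul_assoc, h1, mul_assoc, h2, mul_assoc]
      have := hP z (x * m ^ i) hzp hyp hcomm hz1
      apply hyM
      have hzM : z ∈ M := M.pow_mem hmM _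
      exact (Subgroup.zpowers_le.mpr hzM) this
    · -- `x` generates
      have hcop : Nat.Coprime (orderOf m) t := by
        rw [hmord]
        exact Nat.Coprime.pow_left _ ((Nat.Prime.coprime_iff_not_dvd hp).mpr hpt)
      have h1 : orderOf (x ^ p) = p ^ (k + 1) := by
        rw [← ht, Nat.Coprime.orderOf_pow hcop, hmord]
      have h2 : orderOf x ∣ p ^ (k + 2) := by
        rw [show k + 2 = k + 1 + 1 by ring, ← hcard]; exact orderOf_dvd_natCard x
      obtain ⟨j, hj, hj'⟩ := (Nat.dvd_prime_pow hp).mp h2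
      apply isCyclic_of_orderOf_eq_card x
      rw [hcard]
      rw [orderOf_pow, hj'] at h1
      rcases Nat.eq_zero_or_pos j with rfl | hj0
      · simp only [pow_zero, Nat.gcd_one_left, Nat.div_one] at h1
        exact absurd h1.symm (Nat.one_lt_pow (by omega) hp.one_lt).ne'
      · obtain ⟨j', rfl⟩ := Nat.exists_eq_succ_of_ne_zero hj0.ne'
        have h3 : Nat.gcd (p ^ (j' + 1)) p = p := Nat.gcd_eq_right (dvd_pow_self p (by omega))
        rw [Nat.succ_eq_add_one, h3, pow_succ, Nat.mul_div_cancel _ hp.pos] at h1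
        have h4 := Nat.pow_right_injective hp.two_le h1
        rw [hj', h4]

end Pool.Agent.Lib.MP_2b9f9a_al
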