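import Pool.Agent.Lib.MP_2b9f9a_al.Conv
import Pool.Agent.Lib.MP_2b9f9a_al.PGroup

/-!
# The theorem for Frobenius groups of automorphisms of Lie rings
-/

set_option autoImplicit false

namespace Pool.Agent.Lib.MP_2b9f9a_al

/-- The norm of a fixed-point-free endomorphism vanishes. -/
theorem norm_zero {A : Type*} [AddCommGroup A] {p : ℕ} [Fact p.Prime] {g : AddMonoid.End A}
    (hg : g ^ p = 1) (hfix : ∀ x, g x = x → x = 0) : ∑ i : ZMod p, g ^ i.val = 0 := by
  ext x
  apply hfix
  rw [← end_mul_apply]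
  suffices hh : g * ∑ i : ZMod p, g ^ i.val = ∑ i : ZMod p, g ^ i.val by rw [hh]
  rw [Finset.mul_sum]
  refine Fintype.sum_equiv (Equiv.addRight (1 : ZMod p)) _ _ (fun i => ?_)
  have hp : 1 < p := (Fact.out : p.Prime).one_lt
  have : Fact (1 < p) := ⟨hp⟩
  simp only [Equiv.coe_addRight]
  rw [pow_val_add hg, ZMod.val_one, pow_one]
  exact ((Commute.refl g).pow_right _)

section fpf

variable {G : Type} [Group G] {A : Type} [AddCommGroup A] [Nontrivial A]
  (ρ : G →* AddMonoid.End A) (F : Subgroup G) [Finite F]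
  (hF : ∀ y ∈ F, y ≠ 1 → ∀ g : A, ρ y g = g → g = 0)

include hF in
theorem no_rank_two {p : ℕ} [Fact p.Prime] (x y : G) (hxF : x ∈ F) (hyF : y ∈ F)
    (hx : x ^ p = 1) (hy : y ^ p = 1) (hxy : x * y = y * x) (hx1 : x ≠ 1) :
    y ∈ Subgroup.zpowers x := by
  by_contra hyx
  have hp : p.Prime := Fact.out
  have hy1 : y ≠ 1 := by
    rintro rfl
    exact hyx (Subgroup.one_mem _)
  set X : AddMonoid.End A := ρ x with hX
  set Y : AddMonoid.End A := ρ y with hY
  have hXp : X ^ p = 1 := by rw [hX, ← map_pow, hx, map_one]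
  have hYp : Y ^ p = 1 := by rw [hY, ← map_pow, hy, map_one]
  have hXY : Commute X Y := by
    have := congrArg ρ hxy
    rw [map_mul, map_mul] at this
    exact this
  have hnY : ∑ i : ZMod p, Y ^ i.val = 0 := norm_zero hYp (hF y hyF hy1)
  have hn : ∀ j : ZMod p, ∑ i : ZMod p, (X * Y ^ j.val) ^ i.val = 0 := by
    intro j
    have hne : x * y ^ j.val ≠ 1 := by
      intro h
      apply hyx
      by_cases hj : j = 0
      · subst hj
        simp at h
        exact absurd h hx1
      · have h1 : y ^ j.val ∈ Subgroup.zpowers x := by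
          have : y ^ j.val = x⁻¹ := (eq_inv_of_mul_eq_one_right h)
          rw [this]
          exact Subgroup.inv_mem _ (Subgroup.mem_zpowers x)
        have h2 : y = (y ^ j.val) ^ (j⁻¹).val := by
          rw [← pow_val_mul hy, mul_inv_cancel₀ hj]
          have : Fact (1 < p) := ⟨hp.one_lt⟩
          rw [ZMod.val_one, pow_one]
        rw [h2]
        exact Subgroup.pow_mem _ h1 _
    apply norm_zero
    · rw [(hXY.pow_right j.val).mul_pow, hXp, ← pow_mul, mul_comm, pow_mul, hYp, one_pow, one_mul]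
    · intro v hv
      apply hF (x * y ^ j.val) (F.mul_mem hxF (F.pow_mem hyF _)) hne
      have : ρ (x * y ^ j.val) v = v := by
        rw [map_mul, map_pow]; exact hv
      exact this
  have hsum : ∑ j : ZMod p, ∑ i : ZMod p, (X * Y ^ j.val) ^ i.val = (p : AddMonoid.End A) := by
    rw [Finset.sum_comm]
    rw [Finset.sum_eq_single (0 : ZMod p)]
    · simp only [ZMod.val_zero, pow_zero, Finset.sum_const, Finset.card_univ, ZMod.card]
      rw [nsmul_eq_mul, mul_one]
    · intro i _ hi
      have e : ∀ j : ZMod p, (X * Y ^ j.val) ^ i.val = X ^ i.val * Y ^ (j * i).val := by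
        intro j
        rw [(hXY.pow_right j.val).mul_pow, pow_val_mul hYp]
      simp only [e]
      rw [← Finset.mul_sum]
      have : ∑ j : ZMod p, Y ^ (j * i).val = ∑ j : ZMod p, Y ^ j.val :=
        Fintype.sum_equiv (Equiv.mulRight₀ i hi) _ _ (fun _ => rfl)
      rw [this, hnY, mul_zero]
    · intro h; exact absurd (Finset.mem_univ _) h
  have hp0 : (p : AddMonoid.End A) = 0 := by
    rw [← hsum]
    exact Finset.sum_eq_zero (fun j _ => hn j)
  obtain ⟨v, hv⟩ := exists_ne (0 : A)
  apply hv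
  apply no_torsion hXp (hF x hxF hx1)
  rw [← natCast_end_apply, hp0]
  rfl

omit [Nontrivial A] [Finite F] in
include hF in
theorem involution {t : G} (htF : t ∈ F) (ht : t ^ 2 = 1) (ht1 : t ≠ 1) (v : A) :
    ρ t v = -v := by
  have hfix := hF t htF ht1 (v + ρ t v)
  have h2 : ρ t (v + ρ t v) = v + ρ t v := by
    rw [map_add]
    have : ρ t (ρ t v) = v := by
      rw [← end_mul_apply, ← map_mul, ← pow_two, ht, map_one]
      rfl
    rw [this, add_comm]
  have := hfix h2
  exact (neg_eq_of_add_eq_zero_right this).symm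

omit [Finite F] in
include hF in
theorem eq_one_of_trivial {t : G} (htF : t ∈ F) (ht : ∀ v, ρ t v = v) : t = 1 := by
  by_contra ht1
  obtain ⟨v, hv⟩ := exists_ne (0 : A)
  exact hv (hF t htF ht1 v (ht v))

variable (H : Subgroup G) (hHF : ∀ x ∈ H, ∀ y ∈ F, x * y * x⁻¹ ∈ F)
  (hH : H ≠ ⊥) (hfrob : ∀ x ∈ H, x ≠ 1 → ∀ y ∈ F, x * y = y * x → y = 1)

include hF hHF hH hfrob in
theorem no_involution {t : G} (htF : t ∈ F) (ht : t ^ 2 = 1) : t = 1 := by
  by_contra ht1
  obtain ⟨x, hxH, hx1⟩ := H.bot_or_exists_ne_one.resolve_left hH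
  apply ht1
  apply hfrob x hxH hx1 t htF
  have h1 := involution ρ F hF htF ht ht1
  have h2 : x * t * x⁻¹ * t = 1 := by
    apply eq_one_of_trivial ρ F hF (F.mul_mem (hHF x hxH t htF) htF)
    intro v
    rw [map_mul, map_mul, map_mul, end_mul_apply, end_mul_apply, end_mul_apply, h1, h1, map_neg,
      map_neg, map_neg, neg_neg, ← end_mul_apply, ← map_mul, mul_inv_cancel, map_one]
    rfl
  have h3 : t⁻¹ = t := by
    rw [inv_eq_iff_mul_eq_one, ← pow_two, ht]
  have h4 : x * t * x⁻¹ = t := by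
    rw [← h3]
    nth_rewrite 1 [h3]
    exact eq_inv_of_mul_eq_one_left h2
  rw [mul_inv_eq_iff_eq_mul] at h4
  exact h4

include hF hHF hH hfrob in
theorem isZGroup_F : IsZGroup F := by
  constructor
  intro p hp P
  have : Fact p.Prime := ⟨hp⟩
  obtain ⟨n, hn⟩ := IsPGroup.iff_card.mp P.isPGroup'
  by_cases hp2 : p = 2
  · subst hp2
    rcases Nat.eq_zero_or_pos n with rfl | hn0
    · rw [pow_zero, Nat.card_eq_one_iff_unique] at hn
      have := hn.1
      infer_instance
    · exfalso
      have hdvd : 2 ∣ Nat.card (P : Subgroup F) := by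
        rw [hn]; exact dvd_pow_self 2 hn0.ne'
      obtain ⟨g, hg⟩ := exists_prime_orderOf_dvd_card' 2 hdvd
      have hg2 : g ^ 2 = 1 := orderOf_dvd_iff_pow_eq_one.mp (by rw [hg])
      have h1 : ((g : F) : G) = 1 := by
        apply no_involution ρ F hF H hHF hH hfrob (g : F).2
        exact_mod_cast congrArg (fun g : (P : Subgroup F) => ((g : F) : G)) hg2
      have h2 : g = 1 := Subtype.ext (Subtype.ext h1)
      rw [h2, orderOf_one] at hg
      omega
  · apply isCyclic_of_pGroup hp2 n (P : Subgroup F) hn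
    intro x y hx hy hxy hx1
    have h := no_rank_two ρ F hF ((x : F) : G) ((y : F) : G) (x : F).2 (y : F).2
      (p := p)
      (by exact_mod_cast congrArg (fun g : (P : Subgroup F) => ((g : F) : G)) hx)
      (by exact_mod_cast congrArg (fun g : (P : Subgroup F) => ((g : F) : G)) hy)
      (by exact_mod_cast congrArg (fun g : (P : Subgroup F) => ((g : F) : G)) hxy)
      (by intro h; apply hx1; exact Subtype.ext (Subtype.ext h))
    rw [Subgroup.mem_zpowers_iff] at h ⊢
    obtain ⟨j, hj⟩ := h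
    refine ⟨j, Subtype.ext (Subtype.ext ?_)⟩
    rw [← hj]
    simp

/-- in a finite cyclic group, elements with `x ^ p = 1` are powers of any element of order `p`. -/
theorem mem_zpowers_of_cyclic {K : Type*} [Group K] [Finite K] [IsCyclic K] {p : ℕ}
    (hp : p.Prime) {φ ψ : K} (hφ : orderOf φ = p) (hψ : ψ ^ p = 1) :
    ψ ∈ Subgroup.zpowers φ := by
  classical
  have := Fintype.ofFinite K
  have h1 := IsCyclic.card_pow_eq_one_le (α := K) hp.pos
  set s := Finset.univ.filter (fun a : K => a ^ p = 1) with hs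
  set t := Finset.univ.filter (fun a : K => a ∈ Subgroup.zpowers φ) with ht
  have hts : t ⊆ s := by
    intro a ha
    rw [ht, Finset.mem_filter] at ha
    rw [hs, Finset.mem_filter]
    refine ⟨Finset.mem_univ _, ?_⟩
    obtain ⟨j, rfl⟩ := Subgroup.mem_zpowers_iff.mp ha.2
    rw [← zpow_natCast, ← zpow_mul, mul_comm, zpow_mul, zpow_natCast, ← hφ, pow_orderOf_eq_one,
      one_zpow]
  have htcard : t.card = p := by
    rw [← hφ, ← Nat.card_zpowers, Nat.card_eq_fintype_card, Fintype.card_subtype]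
  have heq := Finset.eq_of_subset_of_card_le hts (by rw [htcard]; exact h1)
  have : ψ ∈ t := by
    rw [heq, hs, Finset.mem_filter]
    exact ⟨Finset.mem_univ _, hψ⟩
  rw [ht, Finset.mem_filter] at this
  exact this.2

include hF hHF hH hfrob in
/-- `F` contains a subgroup of prime order normalized by `H`. -/
theorem exists_prime_subgroup (hFne : F ≠ ⊥) :
    ∃ p : ℕ, p.Prime ∧ ∃ φ ∈ F, orderOf φ = p ∧ ∀ x ∈ H, x⁻¹ * φ * x ∈ Subgroup.zpowers φ := by
  have hZ := isZGroup_F ρ F hF H hHF hH hfrob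
  -- a nontrivial cyclic characteristic subgroup
  obtain ⟨K, hKchar, hKcyc, hKne⟩ : ∃ K : Subgroup F, K.Characteristic ∧ IsCyclic K ∧ K ≠ ⊥ := by
    by_cases hc : commutator F = ⊥
    · have hcomm : ∀ a b : F, a * b = b * a := by
        intro a b
        have : a * b * a⁻¹ * b⁻¹ ∈ commutator F := by
          rw [commutator_def]
          exact Subgroup.commutator_mem_commutator (Subgroup.mem_top _) (Subgroup.mem_top _)
        rw [hc, Subgroup.mem_bot] at this
        rw [mul_inv_eq_one, mul_inv_eq_iff_eq_mul] at this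
        exact this
      have hnil : Group.IsNilpotent F := by
        let _ : CommGroup F := { (inferInstance : Group F) with mul_comm := hcomm }
        infer_instance
      have hFcyc : IsCyclic F := inferInstance
      refine ⟨⊤, inferInstance, ?_, ?_⟩
      · infer_instance
      · intro h
        apply hFne
        rw [eq_bot_iff]
        intro x hx
        have : (⟨x, hx⟩ : F) ∈ (⊤ : Subgroup F) := Subgroup.mem_top _
        rw [h, Subgroup.mem_bot] at this
        rw [Subgroup.mem_bot]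
        exact congrArg Subtype.val this
    · exact ⟨commutator F, inferInstance, IsZGroup.isCyclic_commutator F, hc⟩
  have hKcard : Nat.card K ≠ 1 := by
    intro h
    exact hKne (Subgroup.card_eq_one.mp h)
  obtain ⟨p, hp, hpK⟩ := Nat.exists_prime_and_dvd hKcard
  have : Fact p.Prime := ⟨hp⟩
  obtain ⟨φ, hφ⟩ := exists_prime_orderOf_dvd_card' p hpK
  refine ⟨p, hp, ((φ : F) : G), (φ : F).2, ?_, ?_⟩
  · rw [← hφ, Subgroup.orderOf_coe, Subgroup.orderOf_coe]
  · intro x hxH
    -- conjugation by `x⁻¹`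
    have hmem : ∀ x ∈ H, ∀ y : F, x * (y : G) * x⁻¹ ∈ F := fun x hx y => hHF x hx y y.2
    let c : F ≃* F :=
      { toFun := fun y => ⟨x⁻¹ * y * x, by simpa using hmem x⁻¹ (H.inv_mem hxH) y⟩
        invFun := fun y => ⟨x * y * x⁻¹, hmem x hxH y⟩
        left_inv := by intro y; apply Subtype.ext; simp [mul_assoc]
        right_inv := by intro y; apply Subtype.ext; simp [mul_assoc]
        map_mul' := by intro y z; apply Subtype.ext; simp [mul_assoc] }
    have hcK : c (φ : F) ∈ K := by
      have h1 := hKchar.fixed c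
      have h2 : (φ : F) ∈ K.comap c.toMonoidHom := by rw [h1]; exact φ.2
      exact h2
    have hψp : (⟨c (φ : F), hcK⟩ : K) ^ p = 1 := by
      apply Subtype.ext
      have : (φ : F) ^ p = 1 := by
        rw [← hφ]
        exact_mod_cast congrArg Subtype.val (pow_orderOf_eq_one φ)
      change (c (φ : F)) ^ p = 1
      rw [← map_pow, this, map_one]
    have h3 := mem_zpowers_of_cyclic hp hφ hψp
    rw [Subgroup.mem_zpowers_iff] at h3 ⊢
    obtain ⟨j, hj⟩ := h3
    refine ⟨j, ?_⟩
    have h4 := congrArg (fun g : K => ((g : F) : G)) hj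
    have h5 : (((⟨c (φ : F), hcK⟩ : K) : F) : G) = x⁻¹ * ((φ : F) : G) * x := rfl
    rw [← h5, ← h4]
    simp

end fpf

/-- The Lie ring analogue. -/
theorem lie_frobenius (h d : ℕ) : ∃ N : ℕ, ∀ (L G : Type) [LieRing L] [Group G]
      [DistribMulAction G L] (F H : Subgroup G) [Finite F],
      (∀ (g : G) (x y : L), g • ⁅x, y⁆ = ⁅g • x, g • y⁆) →
      (∀ x ∈ H, ∀ y ∈ F, x * y * x⁻¹ ∈ F) →
      F ≠ ⊥ → H ≠ ⊥ →
      (∀ x ∈ H, x ≠ 1 → ∀ y ∈ F, x * y = y * x → y = 1) →
      (∀ y ∈ F, y ≠ 1 → ∀ v : L, y • v = v → v = 0) →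
      Nat.card H = h →
      (∀ C : LieSubalgebra ℤ L, (∀ v : L, v ∈ C ↔ ∀ x ∈ H, x • v = v) →
        LieAlgebra.derivedSeries ℤ C d = ⊥) →
      LieAlgebra.derivedSeries ℤ L N = ⊥ := by
  refine ⟨NBound h d, ?_⟩
  intro L G _ _ _ F H _ hlie hHF hFne hHne hfrob hfpf hcard hC
  rcases subsingleton_or_nontrivial L with hsub | hnt
  · rw [eq_bot_iff]
    intro x _
    rw [LieSubmodule.mem_bot]
    exact Subsingleton.elim _ _
  set ρ : G →* AddMonoid.End L := DistribMulAction.toAddMonoidEnd G L with hρ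
  have hρa : ∀ (g : G) (v : L), ρ g v = g • v := fun _ _ => rfl
  obtain ⟨p, hp, φ, hφF, hφo, hφH⟩ := exists_prime_subgroup ρ F hfpf H hHF hHne hfrob hFne
  have : Fact p.Prime := ⟨hp⟩
  have hφ1 : φ ≠ 1 := by
    rintro rfl
    rw [orderOf_one] at hφo
    exact hp.one_lt.ne hφo
  have hφp : φ ^ p = 1 := by rw [← hφo]; exact pow_orderOf_eq_one φ
  have hHfin : Finite H := by
    obtain ⟨y, hyF, hy1⟩ := F.bot_or_exists_ne_one.resolve_left hFne
    have hinj : Function.Injective (fun x : H => (fun y : F => (⟨x * y * (x : G)⁻¹,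
        hHF x x.2 y y.2⟩ : F))) := by
      intro x x' hxx'
      have h1 := congrArg (fun f : F → F => ((f ⟨y, hyF⟩ : F) : G)) hxx'
      simp only at h1
      by_contra hne
      apply hy1
      apply hfrob ((x' : G)⁻¹ * x) (H.mul_mem (H.inv_mem x'.2) x.2)
      · intro h2
        apply hne
        apply Subtype.ext
        exact (inv_mul_eq_one.mp h2).symm
      · exact hyF
      · have h3 : (x : G) * y = x' * y * (x' : G)⁻¹ * x := by
          rw [← h1]; group
        calc (x' : G)⁻¹ * x * y = (x' : G)⁻¹ * (x * y) := by group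
          _ = y * ((x' : G)⁻¹ * x) := by rw [h3]; group
    exact Finite.of_injective _ hinj
  have hpow : ∀ x : H, ∃ n : ZMod p, φ ^ n.val = (x : G)⁻¹ * φ * x := by
    intro x
    have h1 := hφH x x.2
    have hfo : IsOfFinOrder φ := isOfFinOrder_iff_pow_eq_one.mpr ⟨p, hp.pos, hφp⟩
    rw [← hfo.mem_powers_iff_mem_zpowers] at h1
    obtain ⟨n, hn⟩ := h1
    refine ⟨(n : ZMod p), ?_⟩
    rw [ZMod.val_natCast, ← hn]
    exact (pow_eq_pow_mod n hφp).symm
  choose τ hτ using hpow
  have := Fintype.ofFinite H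
  -- the fixed point subalgebra
  let C : LieSubalgebra ℤ L :=
    { carrier := {g | ∀ x ∈ H, x • g = g}
      add_mem' := by
        intro a b ha hb x hx
        rw [smul_add, ha x hx, hb x hx]
      zero_mem' := by intro x _; exact smul_zero x
      smul_mem' := by
        intro n a ha x hx
        rw [← hρa, map_zsmul, hρa, ha x hx]
      lie_mem' := by
        intro a b ha hb x hx
        rw [hlie x, ha x hx, hb x hx] }
  apply lie_prime (p := p) (C := C) h d (ρ φ) (hlie φ) (by rw [← map_pow, hφp, map_one])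
    (hfpf φ hφF hφ1) (Γ := H) (by rw [← Nat.card_eq_fintype_card, hcard])
    (ρ.comp H.subtype) τ
  · intro x
    rw [← map_pow, hτ x]
    change ρ φ * ρ (x : G) = ρ (x : G) * ρ _
    rw [← map_mul, ← map_mul]
    congr 1
    group
  · intro x hx
    by_contra hx1
    apply hφ1
    apply hfrob x x.2 (by intro h; exact hx1 (Subtype.ext h)) φ hφF
    have h1 := hτ x
    have : Fact (1 < p) := ⟨hp.one_lt⟩
    rw [hx, ZMod.val_one, pow_one] at h1
    have h2 : (x : G) * φ = x * ((x : G)⁻¹ * φ * x) := by rw [← h1]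
    rw [h2]; group
  · intro g
    change (∀ x ∈ H, x • g = g) ↔ _
    constructor
    · intro hg x
      exact hg x x.2
    · intro hg x hx
      exact hg ⟨x, hx⟩
  · exact hC C (fun g => Iff.rfl)

end Pool.Agent.Lib.MP_2b9f9a_al
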