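import Pool.Agent.Lib.MP_2b9f9a_al.Selective

/-!
# The grading by eigenspaces of an automorphism of prime order
-/

set_option autoImplicit false

namespace Pool.Agent.Lib.MP_2b9f9a_al

variable {p : ℕ} [Fact p.Prime]

theorem pow_val_add {G : Type*} [Monoid G] {g : G} (hg : g ^ p = 1) (i j : ZMod p) :
    g ^ (i + j).val = g ^ i.val * g ^ j.val := by
  rw [ZMod.val_add, ← pow_add]
  exact (pow_eq_pow_mod _ hg).symm

theorem pow_val_mul {G : Type*} [Monoid G] {g : G} (hg : g ^ p = 1) (i j : ZMod p) :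
    g ^ (i * j).val = (g ^ i.val) ^ j.val := by
  rw [ZMod.val_mul, ← pow_mul]
  exact (pow_eq_pow_mod _ hg).symm

variable {M : Type*} [LieRing M]

/-- A Lie ring with a formal `p`-th root of unity `S` and an automorphism `φ` with
`φ ^ p = 1` without fixed points. -/
structure Datum (p : ℕ) (S φ : AddMonoid.End M) : Prop where
  Slie : ∀ x y, ⁅S x, y⁆ = S ⁅x, y⁆
  Sp : S ^ p = 1
  φlie : ∀ x y, φ ⁅x, y⁆ = ⁅φ x, φ y⁆
  φp : φ ^ p = 1
  comm : Commute φ S
  fix : ∀ x, φ x = x → x = 0

variable {S φ : AddMonoid.End M}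

theorem end_mul_apply {M : Type*} [AddCommGroup M] (f g : AddMonoid.End M) (x : M) :
    (f * g) x = f (g x) := rfl

theorem end_one_apply {M : Type*} [AddCommGroup M] (x : M) :
    (1 : AddMonoid.End M) x = x := rfl

/-- the powers of `S` -/
def chi (S : AddMonoid.End M) (a : ZMod p) : AddMonoid.End M := S ^ a.val

theorem chi_zero (S : AddMonoid.End M) : chi S (0 : ZMod p) = 1 := by simp [chi]

theorem chi_add (h : Datum p S φ) (a b : ZMod p) : chi S (a + b) = chi S a * chi S b :=
  pow_val_add h.Sp a b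

theorem chi_mul (h : Datum p S φ) (a b : ZMod p) : chi S (a * b) = chi S a ^ b.val :=
  pow_val_mul h.Sp a b

theorem chi_comm (h : Datum p S φ) (a : ZMod p) : Commute φ (chi S a) :=
  h.comm.pow_right _

theorem pow_lie (h : Datum p S φ) (n : ℕ) (x y : M) : ⁅(S ^ n) x, y⁆ = (S ^ n) ⁅x, y⁆ := by
  induction n with
  | zero => simp
  | succ n ih => rw [pow_succ', end_mul_apply, end_mul_apply, h.Slie, ih]

theorem chi_lie (h : Datum p S φ) (a : ZMod p) (x y : M) : ⁅chi S a x, y⁆ = chi S a ⁅x, y⁆ :=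
  pow_lie h _ x y

theorem lie_chi (h : Datum p S φ) (a : ZMod p) (x y : M) : ⁅x, chi S a y⁆ = chi S a ⁅x, y⁆ := by
  rw [← lie_skew, chi_lie h, ← map_neg, lie_skew]

theorem chi_lie_chi (h : Datum p S φ) (a b : ZMod p) (x y : M) :
    ⁅chi S a x, chi S b y⁆ = chi S (a + b) ⁅x, y⁆ := by
  rw [chi_lie h, lie_chi h, chi_add h, end_mul_apply]

/-- the norm element -/
def nrm (p : ℕ) [Fact p.Prime] (S : AddMonoid.End M) : AddMonoid.End M := ∑ a : ZMod p, chi S a

theorem nrm_mul_chi (h : Datum p S φ) (a : ZMod p) : nrm p S * chi S a = nrm p S := by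
  unfold nrm
  rw [Finset.sum_mul]
  refine Fintype.sum_equiv (Equiv.addRight a) _ _ (fun b => ?_)
  rw [← chi_add h]; rfl

theorem sum_chi_mul {b : ZMod p} (hb : b ≠ 0) : ∑ i : ZMod p, chi S (b * i) = nrm p S :=
  Fintype.sum_equiv (Equiv.mulLeft₀ b hb) _ _ (fun _ => rfl)

/-- eigenspaces -/
def eig (S φ : AddMonoid.End M) : Fam (ZMod p) M := fun a =>
  { carrier := {x | φ x = chi S a x}
    zero_mem' := by simp
    add_mem' := by
      intro x y hx hy
      simp only [Set.mem_ofPred_eq] at hx hy ⊢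
      rw [map_add, map_add, hx, hy]
    neg_mem' := by
      intro x hx
      simp only [Set.mem_ofPred_eq] at hx ⊢
      rw [map_neg, map_neg, hx] }

omit [Fact p.Prime] in
theorem mem_eig {a : ZMod p} {x : M} : x ∈ eig S φ a ↔ φ x = chi S a x := Iff.rfl

theorem eig_lie (h : Datum p S φ) (a b : ZMod p) (x y : M) (hx : x ∈ eig S φ a)
    (hy : y ∈ eig S φ b) : ⁅x, y⁆ ∈ eig S φ (a + b) := by
  rw [mem_eig] at hx hy ⊢
  rw [h.φlie, hx, hy, chi_lie_chi h]

theorem eig_isSub (h : Datum p S φ) : IsSub (eig S φ : Fam (ZMod p) M) where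
  zero x hx := by
    apply h.fix
    rw [mem_eig, chi_zero] at hx
    exact hx
  lie a b x y hx hy := eig_lie h a b x y hx hy

theorem nrm_eig (h : Datum p S φ) {a : ZMod p} {x : M} (hx : x ∈ eig S φ a) :
    nrm p S x = 0 := by
  apply h.fix
  have hc : Commute φ (nrm p S) := by
    unfold nrm
    exact Commute.sum_right _ _ _ (fun a _ => chi_comm h a)
  rw [mem_eig] at hx
  have : φ (nrm p S x) = nrm p S (φ x) := by
    rw [← end_mul_apply, ← end_mul_apply, hc.eq]
  rw [this, hx, ← end_mul_apply, nrm_mul_chi h]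

theorem eig_pow (h : Datum p S φ) {a : ZMod p} {x : M}
    (hx : x ∈ eig S φ a) (n : ℕ) : (φ ^ n) x = (chi S a ^ n) x := by
  rw [mem_eig] at hx
  induction n with
  | zero => simp
  | succ n ih =>
    rw [pow_succ', end_mul_apply, ih, ← end_mul_apply,
      ((chi_comm h a).pow_right n).eq, end_mul_apply, hx, pow_succ,
      end_mul_apply]

/-- projections (multiplied by `p`) -/
def proj (S φ : AddMonoid.End M) (c : ZMod p) : AddMonoid.End M :=
  ∑ i : ZMod p, chi S (-c * i) * φ ^ i.val

theorem sum_apply {ι : Type*} (s : Finset ι) (f : ι → AddMonoid.End M) (x : M) :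
    (∑ i ∈ s, f i) x = ∑ i ∈ s, f i x := by
  exact AddMonoidHom.finsetSum_apply f s x

theorem proj_apply (c : ZMod p) (x : M) :
    proj S φ c x = ∑ i : ZMod p, chi S (-c * i) ((φ ^ i.val) x) := by
  unfold proj
  rw [sum_apply]
  rfl

theorem proj_mem (h : Datum p S φ) (c : ZMod p) (x : M) : proj S φ c x ∈ eig S φ c := by
  rw [mem_eig]
  suffices hh : φ * proj S φ c = chi S c * proj S φ c by
    have := congrArg (fun f : AddMonoid.End M => f x) hh
    exact this
  unfold proj
  rw [Finset.mul_sum, Finset.mul_sum]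
  refine Fintype.sum_equiv (Equiv.addRight (1 : ZMod p)) _ _ (fun i => ?_)
  simp only [Equiv.coe_addRight]
  rw [← mul_assoc, ← mul_assoc, ← chi_add h, (chi_comm h _).eq]
  have e1 : c + -c * (i + 1) = -c * i := by ring
  have hp : 1 < p := (Fact.out : p.Prime).one_lt
  have : Fact (1 < p) := ⟨hp⟩
  rw [e1, pow_val_add h.φp, ZMod.val_one, pow_one, mul_assoc]
  congr 1
  exact ((Commute.refl φ).pow_right _)

theorem sum_pow_zero (h : Datum p S φ) : ∑ i : ZMod p, φ ^ i.val = 0 := by
  ext x
  apply h.fix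
  rw [← end_mul_apply]
  suffices hh : φ * ∑ i : ZMod p, φ ^ i.val = ∑ i : ZMod p, φ ^ i.val by rw [hh]
  rw [Finset.mul_sum]
  refine Fintype.sum_equiv (Equiv.addRight (1 : ZMod p)) _ _ (fun i => ?_)
  have hp : 1 < p := (Fact.out : p.Prime).one_lt
  have : Fact (1 < p) := ⟨hp⟩
  simp only [Equiv.coe_addRight]
  rw [pow_val_add h.φp, ZMod.val_one, pow_one]
  exact ((Commute.refl φ).pow_right _)

theorem sum_proj (h : Datum p S φ) : ∑ c : ZMod p, proj S φ c = (p : AddMonoid.End M) - nrm p S := by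
  unfold proj
  rw [Finset.sum_comm]
  have e : ∀ i : ZMod p, ∑ c : ZMod p, chi S (-c * i) * φ ^ i.val =
      nrm p S * φ ^ i.val + if i = 0 then ((p : AddMonoid.End M) - nrm p S) else 0 := by
    intro i
    rw [← Finset.sum_mul]
    split_ifs with hi
    · subst hi
      simp only [mul_zero, chi_zero, ZMod.val_zero, pow_zero, mul_one, Finset.sum_const,
        Finset.card_univ, ZMod.card]
      rw [nsmul_eq_mul, mul_one]; abel
    · have : ∑ c : ZMod p, chi S (-c * i) = nrm p S := by
        rw [← sum_chi_mul (S := S) (b := -i) (neg_ne_zero.mpr hi)]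
        apply Finset.sum_congr rfl
        intro c _
        congr 1
        ring
      rw [this, add_zero]
  rw [Finset.sum_congr rfl (fun i _ => e i), Finset.sum_add_distrib, ← Finset.mul_sum,
    sum_pow_zero h, mul_zero, zero_add, Finset.sum_ite_eq' Finset.univ (0 : ZMod p)]
  simp

theorem proj_eig (h : Datum p S φ) {a c : ZMod p} {x : M} (hx : x ∈ eig S φ a) :
    proj S φ c x = if a = c then p • x else 0 := by
  rw [proj_apply]
  have e : ∀ i : ZMod p, chi S (-c * i) ((φ ^ i.val) x) = chi S ((a - c) * i) x := by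
    intro i
    rw [eig_pow h hx, ← chi_mul h, ← end_mul_apply, ← chi_add h]
    congr 2
    ring
  simp only [e]
  split_ifs with hac
  · subst hac
    simp only [sub_self, zero_mul, chi_zero, end_one_apply, Finset.sum_const,
      Finset.card_univ, ZMod.card]
  · rw [← sum_apply, sum_chi_mul (sub_ne_zero.mpr hac), nrm_eig h hx]

/-- From vanishing of `δ_d` on traces to selective solvability -/
theorem sel_of_action (h : Datum p S φ)
    (htors : ∀ x : M, p • x = 0 → x = 0)
    {Γ : Type*} [Fintype Γ] [DecidableEq Γ] (one : Γ) (σ : Γ → M → M) (τ : Γ → ZMod p)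
    (hσ1 : ∀ x, σ one x = x) (hστ : ∀ g a x, x ∈ eig S φ a → σ g x ∈ eig S φ (τ g * a))
    (hτ : ∀ g, τ g = 1 → g = one) (d : ℕ)
    (hfix : ∀ x : Idx d → M, delta d (fun i => ∑ g, σ g (x i)) = 0) :
    Sel (Finset.univ.image τ) d (eig S φ : Fam (ZMod p) M) := by
  intro e he x hx
  have h0 := hfix x
  rw [delta_sum d (fun i g => σ g (x i))] at h0
  have hz : ∀ k : Idx d → Γ, delta d (fun i => σ (k i) (x i)) ∈
      (eig S φ : Fam (ZMod p) M) (∑ i, τ (k i) * e i) := by
    intro k
    exact delta_mem d (eig S φ) (eig_lie h) (fun i => τ (k i) * e i) _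
      (fun i => hστ _ _ _ (hx i))
  have h1 := congrArg (proj S φ (∑ i, e i)) h0
  rw [map_zero, map_sum, Finset.sum_eq_single (fun _ => one)] at h1
  · have h3 : delta d (fun i => σ one (x i)) = delta d x := by
      congr 1
      funext i
      exact hσ1 _
    rw [h3] at h1
    have h4 : delta d x ∈ (eig S φ : Fam (ZMod p) M) (∑ i, e i) :=
      delta_mem d (eig S φ) (eig_lie h) e x hx
    rw [proj_eig h h4, if_pos rfl] at h1
    exact htors _ h1
  · intro k _ hk
    rw [proj_eig h (hz k), if_neg]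
    intro hsum
    apply hk
    funext i
    apply hτ
    exact he (fun i => τ (k i)) (fun i => Finset.mem_image_of_mem _ (Finset.mem_univ _)) hsum i
  · intro h; exact absurd (Finset.mem_univ _) h

/-- the sum of all the components of a family -/
def tot (X : Fam (ZMod p) M) : AddSubgroup M := ⨆ a, X a

theorem mem_tot {X : Fam (ZMod p) M} {a : ZMod p} {x : M} (hx : x ∈ X a) : x ∈ tot X :=
  AddSubgroup.mem_iSup_of_mem a hx

theorem tot_lie {X Y : Fam (ZMod p) M} {x y : M} (hx : x ∈ tot X) (hy : y ∈ tot Y) :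
    ⁅x, y⁆ ∈ tot (br X Y) := by
  unfold tot at hx hy
  induction hx using AddSubgroup.iSup_induction' with
  | hp a x hx =>
    induction hy using AddSubgroup.iSup_induction' with
    | hp b y hy => exact mem_tot (mem_br hx hy)
    | h1 => simp
    | hadd y z _ _ ihy ihz => rw [lie_add]; exact add_mem ihy ihz
  | h1 => simp
  | hadd x z _ _ ihx ihz => rw [add_lie]; exact add_mem ihx ihz

end Pool.Agent.Lib.MP_2b9f9a_al
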