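import Mathlib

/-!
# Graded families of additive subgroups of a Lie ring

A `Fam A L` is a family of additive subgroups of a Lie ring `L` indexed by an additive group `A`.
-/

set_option autoImplicit false

namespace Pool.Agent.Lib.MP_2b9f9a_al

variable {A : Type*} [AddCommGroup A] {L : Type*} [LieRing L]

/-- family of additive subgroups -/
abbrev Fam (A : Type*) (L : Type*) [LieRing L] := A → AddSubgroup L

/-- The bracket of two families. -/
def br (X Y : Fam A L) : Fam A L := fun a =>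
  AddSubgroup.closure {z | ∃ b, ∃ x ∈ X b, ∃ y ∈ Y (a - b), z = ⁅x, y⁆}

/-- derived series of a family -/
def der (X : Fam A L) : ℕ → Fam A L
  | 0 => X
  | (k+1) => br (der X k) (der X k)

/-- graded Lie subring with trivial zero component -/
structure IsSub (X : Fam A L) : Prop where
  zero : ∀ x ∈ X 0, x = 0
  lie : ∀ a b x y, x ∈ X a → y ∈ X b → ⁅x, y⁆ ∈ X (a + b)

theorem mem_br {X Y : Fam A L} {a b : A} {x y : L} (hx : x ∈ X a) (hy : y ∈ Y b) :
    ⁅x, y⁆ ∈ br X Y (a + b) := by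
  apply AddSubgroup.subset_closure
  exact ⟨a, x, hx, y, by simpa using hy, rfl⟩

theorem mem_br' {X Y : Fam A L} {a b c : A} {x y : L} (hx : x ∈ X a) (hy : y ∈ Y b)
    (h : a + b = c) : ⁅x, y⁆ ∈ br X Y c := by
  subst h; exact mem_br hx hy

/-- to prove `br X Y a ≤ S` -/
theorem br_le {X Y : Fam A L} {a : A} {S : AddSubgroup L}
    (h : ∀ b c x y, b + c = a → x ∈ X b → y ∈ Y c → ⁅x, y⁆ ∈ S) : br X Y a ≤ S := by
  unfold br
  rw [AddSubgroup.closure_le]
  rintro z ⟨b, x, hx, y, hy, rfl⟩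
  exact h b (a - b) x y (by abel) hx hy

/-- if `⁅·, w⁆` maps all brackets generating `br X Y a` into `S`, it maps `br X Y a` into `S`. -/
theorem br_lie_mem {X Y : Fam A L} {a : A} {S : AddSubgroup L} {w : L}
    (h : ∀ b c x y, b + c = a → x ∈ X b → y ∈ Y c → ⁅⁅x, y⁆, w⁆ ∈ S) {z : L}
    (hz : z ∈ br X Y a) : ⁅z, w⁆ ∈ S := by
  unfold br at hz
  induction hz using AddSubgroup.closure_induction with
  | mem z hz =>
    obtain ⟨b, x, hx, y, hy, rfl⟩ := hz
    exact h b (a - b) x y (by abel) hx hy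
  | zero => simp
  | add x y _ _ hx hy => rw [add_lie]; exact add_mem hx hy
  | neg x _ hx => rw [neg_lie]; exact neg_mem hx

/-- if `⁅w, ·⁆` maps all brackets generating `br X Y a` into `S`, it maps `br X Y a` into `S`. -/
theorem lie_br_mem {X Y : Fam A L} {a : A} {S : AddSubgroup L} {w : L}
    (h : ∀ b c x y, b + c = a → x ∈ X b → y ∈ Y c → ⁅w, ⁅x, y⁆⁆ ∈ S) {z : L}
    (hz : z ∈ br X Y a) : ⁅w, z⁆ ∈ S := by
  unfold br at hz
  induction hz using AddSubgroup.closure_induction with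
  | mem z hz =>
    obtain ⟨b, x, hx, y, hy, rfl⟩ := hz
    exact h b (a - b) x y (by abel) hx hy
  | zero => simp
  | add x y _ _ hx hy => rw [lie_add]; exact add_mem hx hy
  | neg x _ hx => rw [lie_neg]; exact neg_mem hx

theorem br_mono {X X' Y Y' : Fam A L} (h : X ≤ X') (h' : Y ≤ Y') : br X Y ≤ br X' Y' := by
  intro a
  apply br_le
  intro b c x y hbc hx hy
  exact mem_br' (h b hx) (h' c hy) hbc

theorem der_zero (X : Fam A L) : der X 0 = X := rfl

theorem der_succ (X : Fam A L) (k : ℕ) : der X (k+1) = br (der X k) (der X k) := rfl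

theorem der_add (X : Fam A L) (k l : ℕ) : der X (k + l) = der (der X k) l := by
  induction l with
  | zero => rfl
  | succ l ih => rw [← Nat.add_assoc, der_succ, ih, der_succ]

theorem IsSub.br_self_le {X : Fam A L} (hX : IsSub X) : br X X ≤ X := by
  intro a
  apply br_le
  rintro b c x y rfl hx hy
  exact hX.lie _ _ _ _ hx hy

theorem IsSub.br_self {X : Fam A L} (hX : IsSub X) : IsSub (br X X) where
  zero x hx := hX.zero x (hX.br_self_le 0 hx)
  lie a b x y hx hy := mem_br (hX.br_self_le _ hx) (hX.br_self_le _ hy)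

theorem IsSub.der {X : Fam A L} (hX : IsSub X) (k : ℕ) : IsSub (der X k) := by
  induction k with
  | zero => exact hX
  | succ k ih => exact ih.br_self

theorem IsSub.der_succ_le {X : Fam A L} (hX : IsSub X) (k : ℕ) :
    Lib.MP_2b9f9a_al.der X (k+1) ≤ Lib.MP_2b9f9a_al.der X k := (hX.der k).br_self_le

theorem IsSub.der_anti {X : Fam A L} (hX : IsSub X) {k l : ℕ} (h : k ≤ l) :
    Lib.MP_2b9f9a_al.der X l ≤ Lib.MP_2b9f9a_al.der X k := by
  induction h with
  | refl => exact le_rfl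
  | step _ ih => exact (hX.der_succ_le _).trans ih

theorem IsSub.der_le {X : Fam A L} (hX : IsSub X) (k : ℕ) :
    Lib.MP_2b9f9a_al.der X k ≤ X := hX.der_anti (Nat.zero_le k)

/-- membership in the graded subring generated by components with degree in `S` -/
inductive Gen (X : Fam A L) (S : Set A) : A → L → Prop
  | of {c : A} {x : L} : c ∈ S → x ∈ X c → Gen X S c x
  | zero {c : A} : Gen X S c 0
  | add {c : A} {x y : L} : Gen X S c x → Gen X S c y → Gen X S c (x + y)
  | neg {c : A} {x : L} : Gen X S c x → Gen X S c (-x)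
  | lie {a b : A} {x y : L} : Gen X S a x → Gen X S b y → Gen X S (a + b) ⁅x, y⁆

/-- The graded subring generated by the components of `X` with degree in `S`. -/
def gen (X : Fam A L) (S : Set A) : Fam A L := fun a =>
  { carrier := {x | Gen X S a x}
    zero_mem' := Gen.zero
    add_mem' := fun h h' => Gen.add h h'
    neg_mem' := fun h => Gen.neg h }

theorem mem_gen {X : Fam A L} {S : Set A} {a : A} {x : L} : x ∈ gen X S a ↔ Gen X S a x := Iff.rfl

theorem le_gen {X : Fam A L} {S : Set A} {a : A} (ha : a ∈ S) : X a ≤ gen X S a :=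
  fun _ hx => Gen.of ha hx

/-- induction principle: to show `gen X S ≤ Y` for a bracket-closed family `Y`. -/
theorem gen_le {X Y : Fam A L} {S : Set A} (h : ∀ c ∈ S, X c ≤ Y c)
    (hl : ∀ a b x y, x ∈ Y a → y ∈ Y b → ⁅x, y⁆ ∈ Y (a + b)) : gen X S ≤ Y := by
  intro a x hx
  induction hx with
  | of hc hx => exact h _ hc hx
  | zero => exact zero_mem _
  | add _ _ ih ih' => exact add_mem ih ih'
  | neg _ ih => exact neg_mem ih
  | lie _ _ ih ih' => exact hl _ _ _ _ ih ih'

theorem IsSub.gen_le_self {X : Fam A L} (hX : IsSub X) (S : Set A) : gen X S ≤ X :=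
  gen_le (fun _ _ => le_rfl) hX.lie

theorem IsSub.gen {X : Fam A L} (hX : IsSub X) (S : Set A) : IsSub (gen X S) where
  zero x hx := hX.zero x (hX.gen_le_self S 0 hx)
  lie _ _ _ _ hx hy := Gen.lie hx hy

theorem gen_mono {X Y : Fam A L} {S S' : Set A} (h : X ≤ Y) (h' : S ⊆ S') :
    gen X S ≤ gen Y S' :=
  gen_le (fun _ hc _ hx => Gen.of (h' hc) (h _ hx)) (fun _ _ _ _ hx hy => Gen.lie hx hy)

/-- the restriction of a family to a set of degrees. -/
def res (X : Fam A L) (S : Set A) : Fam A L := fun a =>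
  { carrier := {x | x ∈ X a ∧ (a ∈ S ∨ x = 0)}
    zero_mem' := ⟨zero_mem _, Or.inr rfl⟩
    add_mem' := by
      rintro x y ⟨hx, hx'⟩ ⟨hy, hy'⟩
      refine ⟨add_mem hx hy, ?_⟩
      rcases hx' with h | h
      · exact Or.inl h
      · rcases hy' with h' | h'
        · exact Or.inl h'
        · right; simp [h, h']
    neg_mem' := by
      rintro x ⟨hx, hx'⟩
      refine ⟨neg_mem hx, ?_⟩
      rcases hx' with h | h
      · exact Or.inl h
      · right; simp [h] }

theorem mem_res {X : Fam A L} {S : Set A} {a : A} {x : L} :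
    x ∈ res X S a ↔ x ∈ X a ∧ (a ∈ S ∨ x = 0) := Iff.rfl

/-- `[X, <X_S>] ≤ [X, X_S]`. -/
theorem lie_gen_mem {X : Fam A L} (hX : IsSub X) {S : Set A} {a b : A} {x y : L}
    (hx : x ∈ X a) (hy : y ∈ gen X S b) : ⁅x, y⁆ ∈ br X (res X S) (a + b) := by
  have key : ∀ b y, Gen X S b y → y ∈ X b ∧ ∀ a x, x ∈ X a → ⁅x, y⁆ ∈ br X (res X S) (a + b) := by
    intro b y hy
    induction hy with
    | of hc hx => exact ⟨hx, fun a x' hx' => mem_br hx' ⟨hx, Or.inl hc⟩⟩
    | zero => exact ⟨zero_mem _, fun a x' _ => by simp⟩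
    | add _ _ ih ih' =>
      refine ⟨add_mem ih.1 ih'.1, fun a x' hx' => ?_⟩
      rw [lie_add]; exact add_mem (ih.2 a x' hx') (ih'.2 a x' hx')
    | neg _ ih =>
      refine ⟨neg_mem ih.1, fun a x' hx' => ?_⟩
      rw [lie_neg]; exact neg_mem (ih.2 a x' hx')
    | @lie c d y z _ _ ih ih' =>
      refine ⟨hX.lie _ _ _ _ ih.1 ih'.1, fun a x' hx' => ?_⟩
      have e : ⁅x', ⁅y, z⁆⁆ = ⁅⁅x', y⁆, z⁆ - ⁅⁅x', z⁆, y⁆ := by
        rw [leibniz_lie x' y z, ← lie_skew ⁅x', z⁆ y]; abel
      rw [e]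
      apply sub_mem
      · have := ih'.2 (a + c) ⁅x', y⁆ (hX.lie _ _ _ _ hx' ih.1)
        rwa [add_assoc] at this
      · have := ih.2 (a + d) ⁅x', z⁆ (hX.lie _ _ _ _ hx' ih'.1)
        have e2 : a + (c + d) = a + d + c := by abel
        rwa [e2]
  exact (key b y hy).2 a x hx

end Pool.Agent.Lib.MP_2b9f9a_al
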