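import Pool.Agent.Lib.MP_2b9f9a_al.Families

/-!
# Kreknin's theorem relative to an ideal, and nilpotent action on modules of bounded support
-/

set_option autoImplicit false

namespace Pool.Agent.Lib.MP_2b9f9a_al

variable {p : ℕ} {L : Type*} [LieRing L]

theorem mem_sup_fam {A : Type*} {X Y : Fam A L} {a : A} {x : L} :
    x ∈ (X ⊔ Y) a ↔ ∃ y ∈ X a, ∃ z ∈ Y a, y + z = x := by
  rw [Pi.sup_apply, AddSubgroup.mem_sup]

theorem kreknin_aux [NeZero p] (C : Finset (ZMod p)) (n : ℕ) :
    ∀ C' ⊆ C, C'.card = n → (∀ c ∈ C', ∀ e ∈ C, e.val < c.val → e ∈ C') →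
    ∀ (T Z : Fam (ZMod p) L), IsSub T → Z ≤ T →
      (∀ a b x y, x ∈ Z a → y ∈ T b → ⁅x, y⁆ ∈ Z (a + b)) →
      (∀ c ∉ C, T c ≤ Z c) → der T (2 ^ n - 1) ≤ gen T (↑C')ᶜ ⊔ Z := by
  induction n with
  | zero =>
    intro C' _ hcard _ T Z hT _ _ _
    have hC' : C' = ∅ := Finset.card_eq_zero.mp hcard
    subst hC'
    intro a x hx
    apply (le_sup_left : gen T _ ≤ _) a
    exact Gen.of (by simp) hx
  | succ n ih =>
    intro C' hC'C hcard hinit T Z hT hZT hZ hC
    have hne : C'.Nonempty := by
      rw [← Finset.card_pos]; omega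
    obtain ⟨c, hc, hmax⟩ := Finset.exists_max_image C' (fun x => x.val) hne
    have hsub : C'.erase c ⊆ C := (Finset.erase_subset _ _).trans hC'C
    have hcard' : (C'.erase c).card = n := by
      rw [Finset.card_erase_of_mem hc]; omega
    have hinit' : ∀ d ∈ C'.erase c, ∀ e ∈ C, e.val < d.val → e ∈ C'.erase c := by
      intro d hd e he hed
      have hd' := Finset.mem_of_mem_erase hd
      rw [Finset.mem_erase]
      refine ⟨?_, hinit d hd' e he hed⟩
      rintro rfl
      have := hmax d hd'
      omega
    -- the family `Y`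
    set Y : Fam (ZMod p) L := gen T (↑C')ᶜ ⊔ Z with hY
    have hgT : gen T (↑C')ᶜ ≤ T := hT.gen_le_self _
    have hYT : Y ≤ T := sup_le hgT hZT
    have hYlie : ∀ a b x y, x ∈ Y a → y ∈ Y b → ⁅x, y⁆ ∈ Y (a + b) := by
      intro a b x y hx hy
      have hy' := hYT b hy
      rw [hY, mem_sup_fam] at hx hy
      obtain ⟨g, hg, z, hz, rfl⟩ := hx
      obtain ⟨g', hg', z', hz', rfl⟩ := hy
      rw [add_lie]
      apply add_mem
      · rw [lie_add]
        apply add_mem
        · exact (le_sup_left : gen T (↑C')ᶜ ≤ Y) _ (Gen.lie hg hg')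
        · apply (le_sup_right : Z ≤ Y)
          rw [← lie_skew, add_comm a b]
          exact neg_mem (hZ _ _ _ _ hz' (hgT _ hg))
      · exact (le_sup_right : Z ≤ Y) _ (hZ _ _ _ _ hz hy')
    set D : Fam (ZMod p) L := der T (2 ^ n - 1) with hD
    have hDle : D ≤ gen T (↑(C'.erase c))ᶜ ⊔ Z :=
      ih (C'.erase c) hsub hcard' hinit' T Z hT hZT hZ hC
    set M : Fam (ZMod p) L := der T (2 ^ n) with hM
    have h2 : 2 ^ n = (2 ^ n - 1) + 1 := by
      have : 1 ≤ 2 ^ n := Nat.one_le_two_pow
      omega
    have hMD : M = br D D := by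
      rw [hM, h2, der_succ]
    have hMsub : IsSub M := hT.der _
    have hMT : M ≤ T := hT.der_le _
    have hexp : 2 ^ (n + 1) - 1 = 2 ^ n + (2 ^ n - 1) := by
      have : 1 ≤ 2 ^ n := Nat.one_le_two_pow
      rw [pow_succ]; omega
    rw [hexp, der_add, ← hM]
    have step := ih (C'.erase c) hsub hcard' hinit' M (Z ⊓ M) hMsub inf_le_right
      (by
        intro a b x y hx hy
        exact ⟨hZ _ _ _ _ hx.1 (hMT _ hy), hMsub.lie _ _ _ _ hx.2 hy⟩)
      (by
        intro e he x hx
        exact ⟨hC e he (hMT _ hx), hx⟩)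
    refine step.trans (sup_le ?_ (inf_le_left.trans le_sup_right))
    apply gen_le _ hYlie
    intro e he
    by_cases hec : e = c
    · subst hec
      rw [hMD]
      apply br_le
      intro b f u v hbf hu hv
      have hv' := hDle f hv
      rw [mem_sup_fam] at hv'
      obtain ⟨g, hg, z, hz, rfl⟩ := hv'
      have huT : u ∈ T b := hT.der_le _ b hu
      rw [lie_add]
      apply add_mem
      · have := lie_gen_mem hT huT hg
        rw [hbf] at this
        revert this
        suffices h : br T (res T (↑(C'.erase e))ᶜ) e ≤ Y e from fun this => h this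
        apply br_le
        rintro b' e' x y hbe hx ⟨hy, hy' | hy'⟩
        · by_cases he' : e' = e
          · subst he'
            have : b' = 0 := by simpa using hbe
            subst this
            rw [hT.zero x hx]; simp
          · by_cases he'C : e' ∈ C
            · have he'C' : e' ∉ C' := by
                intro h
                apply hy'
                simp only [Finset.mem_coe, Finset.mem_erase]
                exact ⟨he', h⟩
              have hval : e.val < e'.val := by
                rcases lt_trichotomy e'.val e.val with h | h | h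
                · exact absurd (hinit e hc e' he'C h) he'C'
                · exact absurd (ZMod.val_injective p h) he'
                · exact h
              have hb' : b' ∉ C' := by
                intro hb'
                have h1 := hmax b' hb'
                have h3 : e.val = (b'.val + e'.val) % p := by
                  rw [← hbe, ZMod.val_add]
                have h4 := ZMod.val_lt b'
                have h5 := ZMod.val_lt e'
                rcases Nat.lt_or_ge (b'.val + e'.val) p with h | h
                · rw [Nat.mod_eq_of_lt h] at h3; omega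
                · have : (b'.val + e'.val) % p = b'.val + e'.val - p := by
                    rw [Nat.mod_eq_sub_mod h, Nat.mod_eq_of_lt]; omega
                  omega
              apply (le_sup_left : gen T (↑C')ᶜ ≤ Y)
              rw [← hbe]
              exact Gen.lie (Gen.of (by simpa using hb') hx) (Gen.of (by simpa using he'C') hy)
            · apply (le_sup_right : Z ≤ Y)
              have := hC e' he'C hy
              rw [← lie_skew, ← hbe, add_comm]
              exact neg_mem (hZ _ _ _ _ this hx)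
        · subst hy'; simp
      · apply (le_sup_right : Z ≤ Y)
        rw [← lie_skew, ← hbf, add_comm]
        exact neg_mem (hZ _ _ _ _ hz huT)
    · intro x hx
      apply (le_sup_left : gen T (↑C')ᶜ ≤ Y)
      refine Gen.of ?_ (hMT _ hx)
      intro h
      apply he
      simp only [Finset.mem_coe, Finset.mem_erase]
      exact ⟨hec, h⟩

/-- Kreknin's theorem (with Shalev's bound in terms of the number of nontrivial components),
relative to an ideal. -/
theorem kreknin [NeZero p] (C : Finset (ZMod p)) (T Z : Fam (ZMod p) L) (hT : IsSub T)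
    (hZT : Z ≤ T) (hZ : ∀ a b x y, x ∈ Z a → y ∈ T b → ⁅x, y⁆ ∈ Z (a + b))
    (hC : ∀ c ∉ C, T c ≤ Z c) : der T (2 ^ C.card - 1) ≤ Z := by
  refine (kreknin_aux C C.card C subset_rfl rfl (fun _ _ e he _ => he) T Z hT hZT hZ hC).trans ?_
  refine sup_le (gen_le (fun c hc => hC c (by simpa using hc)) ?_) le_rfl
  intro a b x y hx hy
  exact hZ _ _ _ _ hx (hZT _ hy)

/-- iterated action -/
def iter (X T : Fam (ZMod p) L) : ℕ → Fam (ZMod p) L
  | 0 => X
  | (m+1) => br (iter X T m) T

theorem iter_add (X T : Fam (ZMod p) L) (m k : ℕ) :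
    iter X T (m + k) = iter (iter X T m) T k := by
  induction k with
  | zero => rfl
  | succ k ih => rw [← Nat.add_assoc]; simp only [iter, ih]

theorem iter_mono {X Y T : Fam (ZMod p) L} (h : X ≤ Y) (m : ℕ) : iter X T m ≤ iter Y T m := by
  induction m with
  | zero => exact h
  | succ m ih => exact br_mono ih le_rfl

theorem iter_le_self {X T : Fam (ZMod p) L}
    (hXT : ∀ a b x y, x ∈ X a → y ∈ T b → ⁅x, y⁆ ∈ X (a + b)) (m : ℕ) : iter X T m ≤ X := by
  induction m with
  | zero => exact le_rfl
  | succ m ih =>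
    intro a
    apply br_le
    rintro b c x y rfl hx hy
    exact hXT _ _ _ _ (ih _ hx) hy

theorem iter_le_of_le {X T U : Fam (ZMod p) L} {m m' : ℕ}
    (hUT : ∀ a b x y, x ∈ U a → y ∈ T b → ⁅x, y⁆ ∈ U (a + b)) (h : iter X T m ≤ U)
    (hm : m ≤ m') : iter X T m' ≤ U := by
  obtain ⟨k, rfl⟩ := Nat.exists_eq_add_of_le hm
  rw [iter_add]
  exact (iter_mono h k).trans (iter_le_self hUT k)

/-- chains -/
theorem iter_chain {X T : Fam (ZMod p) L} {R : ℕ → Fam (ZMod p) L} {m : ℕ} (h0 : X ≤ R 0)
    (h : ∀ i, iter (R i) T m ≤ R (i+1)) (i : ℕ) : iter X T (i * m) ≤ R i := by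
  induction i with
  | zero => simpa [iter] using h0
  | succ i ih =>
    rw [Nat.succ_mul, iter_add]
    exact (iter_mono ih m).trans (h i)

/-- relative powers: `R_0 = X`, `R_{i+1} = [R_i, T] + U`. -/
def rel (X T U : Fam (ZMod p) L) : ℕ → Fam (ZMod p) L
  | 0 => X
  | (i+1) => br (rel X T U i) T ⊔ U

theorem rel_le {X T T' U : Fam (ZMod p) L} (hT : T' ≤ T)
    (hXT : ∀ a b x y, x ∈ X a → y ∈ T b → ⁅x, y⁆ ∈ X (a + b)) (hUX : U ≤ X) (i : ℕ) :
    rel X T' U i ≤ X := by
  induction i with
  | zero => exact le_rfl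
  | succ i ih =>
    refine sup_le ?_ hUX
    intro a
    apply br_le
    rintro b c x y rfl hx hy
    exact hXT _ _ _ _ (ih _ hx) (hT _ hy)

theorem U_le_rel {X T U : Fam (ZMod p) L} (hUX : U ≤ X) (i : ℕ) :
    U ≤ rel X T U i := by
  cases i with
  | zero => exact hUX
  | succ i => exact le_sup_right

/-- invariance of the relative powers -/
theorem rel_inv {X T T' U : Fam (ZMod p) L} 
    (hXT : ∀ a b x y, x ∈ X a → y ∈ T b → ⁅x, y⁆ ∈ X (a + b))
    (hUT : ∀ a b x y, x ∈ U a → y ∈ T b → ⁅x, y⁆ ∈ U (a + b))
    (hcomm : ∀ i a b c x t s, x ∈ rel X T' U i a → t ∈ T' b → s ∈ T c →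
      ⁅x, ⁅t, s⁆⁆ ∈ rel X T' U (i+1) (a + (b + c))) (i : ℕ) :
    ∀ a b x y, x ∈ rel X T' U i a → y ∈ T b → ⁅x, y⁆ ∈ rel X T' U i (a + b) := by
  induction i with
  | zero => exact hXT
  | succ i ih =>
    intro a b x y hx hy
    have hx' : x ∈ (br (rel X T' U i) T' ⊔ U) a := hx
    rw [mem_sup_fam] at hx'
    obtain ⟨u, hu, v, hv, rfl⟩ := hx'
    rw [add_lie]
    apply add_mem
    · apply br_lie_mem _ hu
      rintro c d r t rfl hr ht
      have e : ⁅⁅r, t⁆, y⁆ = ⁅⁅r, y⁆, t⁆ + ⁅r, ⁅t, y⁆⁆ := by
        rw [leibniz_lie r t y, ← lie_skew ⁅r, y⁆ t]; abel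
      rw [e]
      apply add_mem
      · apply (le_sup_left : br (rel X T' U i) T' ≤ br (rel X T' U i) T' ⊔ U)
        exact mem_br' (ih _ _ _ _ hr hy) ht (by abel)
      · have := hcomm i _ _ _ _ _ _ hr ht hy
        rwa [← add_assoc] at this
    · exact (le_sup_right : U ≤ br (rel X T' U i) T' ⊔ U) _ (hUT _ _ _ _ hv hy)

/-- The action of `T` on `X / U` is nilpotent of bounded index if `[T, T]` acts trivially, and
all `T c` with `c ∉ C` act trivially, and the support `B` of `X / U` is finite. -/
theorem abelian_case [Fact p.Prime] (n : ℕ) (B : Finset (ZMod p)) (hB : B.card ≤ n)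
    (hB0 : (0 : ZMod p) ∉ B) (T : Fam (ZMod p) L) (hT : IsSub T) (C : Finset (ZMod p)) :
    ∀ (X U : Fam (ZMod p) L),
      (∀ a b x y, x ∈ X a → y ∈ T b → ⁅x, y⁆ ∈ X (a + b)) →
      (∀ a b x y, x ∈ U a → y ∈ T b → ⁅x, y⁆ ∈ U (a + b)) →
      U ≤ X → (∀ a ∉ B, X a ≤ U a) →
      (∀ a b c x y z, x ∈ X a → y ∈ T b → z ∈ T c → ⁅x, ⁅y, z⁆⁆ ∈ U (a + (b + c))) →
      (∀ c ∉ C, ∀ a x y, x ∈ X a → y ∈ T c → ⁅x, y⁆ ∈ U (a + c)) →
      iter X T ((n + 1) ^ C.card) ≤ U := by
  induction C using Finset.induction_on with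
  | empty =>
    intro X U _ _ _ _ _ hC
    simp only [Finset.card_empty, pow_zero, iter]
    intro a
    apply br_le
    rintro b c x y rfl hx hy
    exact hC c (by simp) b x y hx hy
  | insert c C hcC ih =>
    intro X U hXT hUT hUX hBX hab hC
    rw [Finset.card_insert_of_notMem hcC, pow_succ, mul_comm]
    set T' : Fam (ZMod p) L := res T {c} with hT'
    have hT'T : T' ≤ T := fun a x hx => hx.1
    set R := rel X T' U with hR
    have hRX : ∀ i, R i ≤ X := fun i => rel_le hT'T hXT hUX i
    have hRT : ∀ i, ∀ a b x y, x ∈ R i a → y ∈ T b → ⁅x, y⁆ ∈ R i (a + b) := by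
      apply rel_inv hXT hUT
      intro i a b d x t s hx ht hs
      exact U_le_rel hUX (i+1) _ (hab _ _ _ _ _ _ (hRX i _ hx) (hT'T _ ht) hs)
    have hRsucc : ∀ i, R (i+1) ≤ R i := by
      intro i
      refine sup_le ?_ (U_le_rel hUX i)
      intro a
      apply br_le
      rintro b d x y rfl hx hy
      exact hRT i _ _ _ _ hx (hT'T _ hy)
    have hstep : ∀ i, iter (R i) T ((n+1) ^ C.card) ≤ R (i+1) := by
      intro i
      apply ih (R i) (R (i+1)) (hRT i) (hRT (i+1)) (hRsucc i)
      · intro a ha x hx
        exact U_le_rel hUX (i+1) _ (hBX a ha (hRX i _ hx))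
      · intro a b d x y z hx hy hz
        exact U_le_rel hUX (i+1) _ (hab _ _ _ _ _ _ (hRX i _ hx) hy hz)
      · intro d hd a x y hx hy
        by_cases hdc : d = c
        · subst hdc
          apply (le_sup_left : br (R i) T' ≤ br (R i) T' ⊔ U)
          exact mem_br hx ⟨hy, Or.inl rfl⟩
        · apply U_le_rel hUX (i+1)
          apply hC d _ _ _ _ (hRX i _ hx) hy
          simp [hd, hdc]
    have hchain := iter_chain (X := X) (T := T) (R := R) (m := (n+1)^C.card) le_rfl hstep (n+1)
    refine hchain.trans ?_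
    -- `R (n+1) ≤ U`
    by_cases hc0 : c = 0
    · subst hc0
      refine sup_le ?_ le_rfl
      intro a
      apply br_le
      rintro b d x y rfl hx ⟨hy, hy' | hy'⟩
      · have : d = 0 := hy'
        subst this
        rw [hT.zero y hy]; simp
      · subst hy'; simp
    · have claim : ∀ i : ℕ, ∀ b : ZMod p, (∃ j ≤ i, b - (j : ZMod p) * c ∉ B) → R i b ≤ U b := by
        intro i
        induction i with
        | zero =>
          rintro b ⟨j, hj, hjB⟩
          have : j = 0 := by omega
          subst this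
          simp only [Nat.cast_zero, zero_mul, sub_zero] at hjB
          exact hBX b hjB
        | succ i ihi =>
          rintro b ⟨j, hj, hjB⟩
          by_cases hbB : b ∈ B
          · have hj0 : j ≠ 0 := by
              rintro rfl
              simp only [Nat.cast_zero, zero_mul, sub_zero] at hjB
              exact hjB hbB
            obtain ⟨k, rfl⟩ := Nat.exists_eq_succ_of_ne_zero hj0
            intro x hx
            have hx' : x ∈ (br (R i) T' ⊔ U) b := hx
            rw [mem_sup_fam] at hx'
            obtain ⟨u, hu, v, hv, rfl⟩ := hx'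
            refine add_mem ?_ hv
            revert hu
            suffices h : br (R i) T' b ≤ U b from fun hu => h hu
            apply br_le
            rintro b' d r t rfl hr ⟨ht, ht' | ht'⟩
            · have hd : d = c := ht'
              subst hd
              apply hUT _ _ _ _ _ ht
              apply ihi b' ⟨k, by omega, ?_⟩ hr
              push_cast at hjB
              have e : b' + d - ((k : ZMod p) + 1) * d = b' - (k : ZMod p) * d := by ring
              rwa [e] at hjB
            · subst ht'; simp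
          · exact (hRX (i+1) b).trans (hBX b hbB)
      intro b
      apply claim
      by_contra hcon
      simp only [not_exists, not_and, not_not] at hcon
      by_cases hpn : p ≤ n + 1
      · have hlt := ZMod.val_lt (b / c)
        have := hcon (b / c).val (by omega)
        rw [ZMod.natCast_val, ZMod.cast_id', id_eq, div_mul_cancel₀ _ hc0, sub_self] at this
        exact hB0 this
      · have hinj : Set.InjOn (fun j : ℕ => b - (j : ZMod p) * c) (Finset.range (n+2) : Set ℕ) := by
          intro i hi j hj hij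
          simp only [Finset.coe_range, Set.mem_Iio] at hi hj
          simp only at hij
          have h1 : (i : ZMod p) * c = (j : ZMod p) * c := by
            have := sub_right_injective hij
            exact this
          have h2 : (i : ZMod p) = (j : ZMod p) := mul_right_cancel₀ hc0 h1
          rw [ZMod.natCast_eq_natCast_iff'] at h2
          rwa [Nat.mod_eq_of_lt (by omega), Nat.mod_eq_of_lt (by omega)] at h2
        have hcard := Finset.card_le_card_of_injOn (s := Finset.range (n+2)) (t := B) _
          (by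
            intro j hj
            simp only [Finset.coe_range, Set.mem_Iio] at hj
            exact hcon j (by omega)) hinj
        rw [Finset.card_range] at hcard
        omega

/-- bound for the index of nilpotency -/
def mBound (n : ℕ) : ℕ → ℕ
  | 0 => 1
  | (k+1) => mBound n k * (n + 1) ^ (n * n)

theorem solvable_case [Fact p.Prime] (n : ℕ) (B : Finset (ZMod p)) (hB : B.card ≤ n)
    (hB0 : (0 : ZMod p) ∉ B) (X U : Fam (ZMod p) L) (hUX : U ≤ X)
    (hBX : ∀ a ∉ B, X a ≤ U a) (C : Finset (ZMod p)) (hC : C.card ≤ n * n) (k : ℕ) :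
    ∀ (T : Fam (ZMod p) L), IsSub T →
      (∀ a b x y, x ∈ X a → y ∈ T b → ⁅x, y⁆ ∈ X (a + b)) →
      (∀ a b x y, x ∈ U a → y ∈ T b → ⁅x, y⁆ ∈ U (a + b)) →
      (∀ c ∉ C, ∀ a x y, x ∈ X a → y ∈ T c → ⁅x, y⁆ ∈ U (a + c)) →
      (∀ a b x y, x ∈ X a → y ∈ der T k b → ⁅x, y⁆ ∈ U (a + b)) →
      iter X T (mBound n k) ≤ U := by
  induction k with
  | zero =>
    intro T hT hXT hUT hTC hk
    simp only [mBound, iter]
    intro a
    apply br_le
    rintro b c x y rfl hx hy
    exact hk _ _ _ _ hx hy
  | succ k ih =>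
    intro T hT hXT hUT hTC hk
    set T' : Fam (ZMod p) L := br T T with hT'
    have hT'sub : IsSub T' := hT.br_self
    have hT'T : T' ≤ T := hT.br_self_le
    have h1 : iter X T' (mBound n k) ≤ U := by
      apply ih T' hT'sub
      · intro a b x y hx hy; exact hXT _ _ _ _ hx (hT'T _ hy)
      · intro a b x y hx hy; exact hUT _ _ _ _ hx (hT'T _ hy)
      · intro c hc a x y hx hy; exact hTC c hc _ _ _ hx (hT'T _ hy)
      · intro a b x y hx hy
        apply hk _ _ _ _ hx
        rw [Nat.add_comm, der_add]
        exact hy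
    set R := rel X T' U with hR
    have hRX : ∀ i, R i ≤ X := fun i => rel_le hT'T hXT hUX i
    have hRT : ∀ i, ∀ a b x y, x ∈ R i a → y ∈ T b → ⁅x, y⁆ ∈ R i (a + b) := by
      apply rel_inv hXT hUT
      intro i a b d x t s hx ht hs
      apply (le_sup_left : br (R i) T' ≤ br (R i) T' ⊔ U)
      exact mem_br hx (mem_br (hT'T _ ht) hs)
    have hRsucc : ∀ i, R (i+1) ≤ R i := by
      intro i
      refine sup_le ?_ (U_le_rel hUX i)
      intro a
      apply br_le
      rintro b d x y rfl hx hy
      exact hRT i _ _ _ _ hx (hT'T _ hy)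
    have hstep : ∀ i, iter (R i) T ((n+1) ^ (n * n)) ≤ R (i+1) := by
      intro i
      apply iter_le_of_le (m := (n+1) ^ C.card) (hRT (i+1)) _ (Nat.pow_le_pow_right (by omega) hC)
      apply abelian_case n B hB hB0 T hT C (R i) (R (i+1)) (hRT i) (hRT (i+1)) (hRsucc i)
      · intro a ha x hx
        exact U_le_rel hUX (i+1) _ (hBX a ha (hRX i _ hx))
      · intro a b d x y z hx hy hz
        apply (le_sup_left : br (R i) T' ≤ br (R i) T' ⊔ U)
        exact mem_br hx (mem_br hy hz)
      · intro d hd a x y hx hy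
        exact U_le_rel hUX (i+1) _ (hTC d hd _ _ _ (hRX i _ hx) hy)
    have hchain := iter_chain (X := X) (T := T) (R := R) (m := (n+1)^(n*n)) le_rfl hstep
      (mBound n k)
    refine hchain.trans ?_
    have hRiter : ∀ i, R i ≤ iter X T' i ⊔ U := by
      intro i
      induction i with
      | zero => exact le_sup_left
      | succ i ihi =>
        refine sup_le ?_ le_sup_right
        intro a
        apply br_le
        rintro b c x y rfl hx hy
        have hx' := ihi _ hx
        rw [mem_sup_fam] at hx'
        obtain ⟨u, hu, v, hv, rfl⟩ := hx'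
        rw [add_lie]
        apply add_mem
        · exact (le_sup_left : iter X T' (i+1) ≤ _) _ (mem_br hu hy)
        · exact (le_sup_right : U ≤ iter X T' (i+1) ⊔ U) _ (hUT _ _ _ _ hv (hT'T _ hy))
    exact (hRiter _).trans (sup_le h1 le_rfl)

/-- the universal index of nilpotency. -/
def nilBound (n : ℕ) : ℕ := mBound n (2 ^ (n * n) - 1)

/-- Lemma N: bounded nilpotency of the action on a module of bounded support. -/
theorem nil_action [Fact p.Prime] (n : ℕ) (B : Finset (ZMod p)) (hB : B.card ≤ n)
    (hB0 : (0 : ZMod p) ∉ B) (X U T : Fam (ZMod p) L) (hT : IsSub T)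
    (hUX : U ≤ X) (hBX : ∀ a ∉ B, X a ≤ U a)
    (hXT : ∀ a b x y, x ∈ X a → y ∈ T b → ⁅x, y⁆ ∈ X (a + b))
    (hUT : ∀ a b x y, x ∈ U a → y ∈ T b → ⁅x, y⁆ ∈ U (a + b)) :
    iter X T (nilBound n) ≤ U := by
  classical
  set C : Finset (ZMod p) := (B ×ˢ B).image (fun x => x.1 - x.2) with hC
  have hCcard : C.card ≤ n * n := by
    refine Finset.card_image_le.trans ?_
    rw [Finset.card_product]
    exact Nat.mul_le_mul hB hB
  have hTC : ∀ c ∉ C, ∀ a x y, x ∈ X a → y ∈ T c → ⁅x, y⁆ ∈ U (a + c) := by
    intro c hc a x y hx hy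
    by_cases ha : a ∈ B
    · by_cases hac : a + c ∈ B
      · exfalso
        apply hc
        rw [hC, Finset.mem_image]
        exact ⟨(a + c, a), by simp [ha, hac], by simp⟩
      · exact hBX _ hac (hXT _ _ _ _ hx hy)
    · exact hUT _ _ _ _ (hBX _ ha hx) hy
  -- the centralizer of `X / U` in `T`
  set Z : Fam (ZMod p) L := fun c =>
    { carrier := {t | t ∈ T c ∧ ∀ a x, x ∈ X a → ⁅x, t⁆ ∈ U (a + c)}
      zero_mem' := ⟨zero_mem _, fun a x _ => by simp⟩
      add_mem' := by
        rintro s t ⟨hs, hs'⟩ ⟨ht, ht'⟩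
        refine ⟨add_mem hs ht, fun a x hx => ?_⟩
        rw [lie_add]; exact add_mem (hs' a x hx) (ht' a x hx)
      neg_mem' := by
        rintro s ⟨hs, hs'⟩
        refine ⟨neg_mem hs, fun a x hx => ?_⟩
        rw [lie_neg]; exact neg_mem (hs' a x hx) } with hZ
  have hZT : Z ≤ T := fun a x hx => hx.1
  have hK : der T (2 ^ C.card - 1) ≤ Z := by
    apply kreknin C T Z hT hZT
    · rintro a b z t ⟨hz, hz'⟩ ht
      refine ⟨hT.lie _ _ _ _ hz ht, fun c x hx => ?_⟩
      have e : ⁅x, ⁅z, t⁆⁆ = ⁅⁅x, z⁆, t⁆ - ⁅⁅x, t⁆, z⁆ := by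
        rw [leibniz_lie x z t, ← lie_skew ⁅x, t⁆ z]; abel
      rw [e]
      apply sub_mem
      · have := hUT _ _ _ _ (hz' c x hx) ht
        rwa [add_assoc] at this
      · have := hz' _ _ (hXT _ _ _ _ hx ht)
        have e2 : c + b + a = c + (a + b) := by abel
        rwa [e2] at this
    · intro c hc t ht
      exact ⟨ht, fun a x hx => hTC c hc a x t hx ht⟩
  apply solvable_case n B hB hB0 X U hUX hBX C hCcard _ T hT hXT hUT hTC
  intro a b x y hx hy
  have hle : 2 ^ C.card - 1 ≤ 2 ^ (n * n) - 1 :=
    Nat.sub_le_sub_right (Nat.pow_le_pow_right (by norm_num) hCcard) 1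
  exact (hK _ (hT.der_anti hle _ hy)).2 a x hx

/-- bound in the avoidance theorem -/
def sBound : ℕ → ℕ
  | 0 => 0
  | (n+1) => nilBound (n+1) * (sBound n + 1)

/-- **Avoidance theorem**: for a `ZMod p`-graded Lie ring with zero component trivial, a
derived subring of bounded index is contained in the subring generated by the components outside
a given finite set `B`. -/
theorem avoid [Fact p.Prime] (n : ℕ) : ∀ (X : Fam (ZMod p) L), IsSub X →
    ∀ B : Finset (ZMod p), B.card ≤ n → der X (sBound n) ≤ gen X (↑B)ᶜ := by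
  classical
  induction n with
  | zero =>
    intro X _ B hB
    have : B = ∅ := Finset.card_eq_zero.mp (by omega)
    subst this
    intro a x hx
    exact Gen.of (by simp) hx
  | succ n ih =>
    -- Claim 1
    have claim1 : ∀ (X : Fam (ZMod p) L), IsSub X → ∀ B : Finset (ZMod p), B.card ≤ n + 1 →
        der X (sBound n + 1) ≤ gen X (↑B)ᶜ ⊔ br X (gen X (↑B)ᶜ) := by
      intro X hX B hB a
      by_cases ha : a ∈ B
      · rw [der_succ]
        apply br_le
        intro b c x y hbc hx hy
        have hx' := hX.der_le _ _ hx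
        have hcard : (B.erase a).card ≤ n := by
          rw [Finset.card_erase_of_mem ha]; omega
        have hy' := ih X hX (B.erase a) hcard _ hy
        have h := lie_gen_mem hX hx' hy'
        rw [hbc] at h
        revert h
        suffices h : br X (res X (↑(B.erase a))ᶜ) a ≤ (gen X (↑B)ᶜ ⊔ br X (gen X (↑B)ᶜ)) a from
          fun h' => h h'
        apply br_le
        rintro d e u v hde hu ⟨hv, hv' | hv'⟩
        · by_cases he : e = a
          · subst he
            have : d = 0 := by simpa using hde
            subst this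
            rw [hX.zero u hu]; simp
          · apply (le_sup_right : br X (gen X (↑B)ᶜ) ≤ _)
            refine mem_br' hu (Gen.of ?_ hv) hde
            intro h
            apply hv'
            simp only [Finset.mem_coe, Finset.mem_erase]
            exact ⟨he, h⟩
        · subst hv'; simp
      · intro x hx
        apply (le_sup_left : gen X (↑B)ᶜ ≤ _)
        exact Gen.of (by simpa using ha) (hX.der_le _ _ hx)
    intro X hX B hB
    set σ := sBound n + 1 with hσ
    set T := gen X (↑B)ᶜ with hT
    have hTsub : IsSub T := hX.gen _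
    have hTX : T ≤ X := hX.gen_le_self _
    have claim2 : ∀ j, der X (j * σ) ≤ T ⊔ iter X T j := by
      intro j
      induction j with
      | zero => simp only [Nat.zero_mul]; exact le_sup_right
      | succ j ihj =>
        rw [Nat.succ_mul, der_add]
        have hM := hX.der (j * σ)
        refine (claim1 _ hM B hB).trans ?_
        have hgT : gen (der X (j * σ)) (↑B)ᶜ ≤ T := gen_mono (hX.der_le _) subset_rfl
        refine sup_le (hgT.trans le_sup_left) ?_
        intro a
        apply br_le
        rintro b c x y rfl hx hy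
        have hx' := ihj _ hx
        rw [mem_sup_fam] at hx'
        obtain ⟨u, hu, v, hv, rfl⟩ := hx'
        rw [add_lie]
        apply add_mem
        · exact (le_sup_left : T ≤ _) _ (Gen.lie hu (hgT _ hy))
        · exact (le_sup_right : iter X T (j+1) ≤ _) _ (mem_br hv (hgT _ hy))
    have claim3 : iter X T (nilBound (n+1)) ≤ T := by
      apply nil_action (n+1) (B.erase 0) ((Finset.card_erase_le).trans hB)
        (Finset.notMem_erase 0 B) X T T hTsub hTX
      · intro a ha x hx
        by_cases ha0 : a = 0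
        · subst ha0
          rw [hX.zero x hx]; exact zero_mem _
        · apply Gen.of _ hx
          intro h
          apply ha
          rw [Finset.mem_erase]
          exact ⟨ha0, h⟩
      · intro a b x y hx hy
        exact hX.lie _ _ _ _ hx (hTX _ hy)
      · intro a b x y hx hy
        exact Gen.lie hx hy
    have := claim2 (nilBound (n+1))
    exact this.trans (sup_le le_rfl claim3)

/-- **Avoidance lemma for one commutator.** -/
theorem avoid_comm [Fact p.Prime] (n : ℕ) (X : Fam (ZMod p) L) (hX : IsSub X)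
    (B : Finset (ZMod p)) (hB : B.card ≤ n) (a : ZMod p) :
    der X (sBound n + 1) a ≤ AddSubgroup.closure
      {z | ∃ b c : ZMod p, b + c = a ∧ c ∉ B ∧ ∃ x ∈ X b, ∃ y ∈ X c, z = ⁅x, y⁆} := by
  classical
  rw [der_succ]
  apply br_le
  intro b c x y hbc hx hy
  have hx' := hX.der_le _ _ hx
  have hy' := avoid n X hX B hB _ hy
  have h := lie_gen_mem hX hx' hy'
  rw [hbc] at h
  revert h
  suffices h : br X (res X (↑B)ᶜ) a ≤ AddSubgroup.closure
      {z | ∃ b c : ZMod p, b + c = a ∧ c ∉ B ∧ ∃ x ∈ X b, ∃ y ∈ X c, z = ⁅x, y⁆} from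
    fun h' => h h'
  apply br_le
  rintro d e u v hde hu ⟨hv, hv' | hv'⟩
  · apply AddSubgroup.subset_closure
    exact ⟨d, e, hde, by simpa using hv', u, hu, v, hv, rfl⟩
  · subst hv'; simp

end Pool.Agent.Lib.MP_2b9f9a_al
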