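import Pool.Agent.Lib.MP_2b9f9a_al.PX.Tower78

/-!
# The derived series modulo powers

In the situation of the question let `G` be nilpotent and let `r` be squarefree and divisible by
all primes that divide the order of `G`.  Let `U 0 = G` and let `U (i + 1)` be generated by the
`r`-th powers of the elements of `U i`.  Then the member number `j * N` of the derived series
of `G` lies in `U j`, where `N` depends only on the order of `H` and the derived length of the
fixed points of `H`.
-/

set_option autoImplicit false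

namespace Pool.Agent.Lib.MP_2b9f9a_al.PowerSubgroups

theorem powerSubgroups :
    ∀ (h d : ℕ), ∃ N : ℕ, ∀ (G : Type) [Group G] [Finite G] (F H : Subgroup (MulAut G)),
      Group.IsNilpotent G →
      (∀ x ∈ H, ∀ y ∈ F, x * y * x⁻¹ ∈ F) →
      F ≠ ⊥ → H ≠ ⊥ →
      (∀ x ∈ H, x ≠ 1 → ∀ y ∈ F, x * y = y * x → y = 1) →
      (∀ y ∈ F, y ≠ 1 → ∀ g : G, y g = g → g = 1) →
      Nat.card H = h →
      (∀ C : Subgroup G, (∀ g : G, g ∈ C ↔ ∀ x ∈ H, x g = g) → derivedSeries C d = ⊥) →
      ∀ r : ℕ, Squarefree r → (∀ p : ℕ, p.Prime → p ∣ Nat.card G → p ∣ r) →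
      ∀ U : ℕ → Subgroup G, U 0 = ⊤ →
        (∀ i, U (i + 1) = Subgroup.closure {g | ∃ x ∈ U i, g = x ^ r}) →
        ∀ j, derivedSeries G (j * N) ≤ U j := by
  intro h d
  exact Pool.Agent.PX.Tower78.nilG h d

end Pool.Agent.Lib.MP_2b9f9a_al.PowerSubgroups
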