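import Pool.Agent.Lib.MP_2b9f9a_al.Kreknin

/-!
# Selective solvability implies solvability

-/

set_option autoImplicit false

namespace Pool.Agent.Lib.MP_2b9f9a_al

variable {p : ℕ} {L : Type*} [LieRing L]

/-- index set of cardinality `2 ^ d` -/
def Idx : ℕ → Type
  | 0 => Unit
  | (d+1) => Idx d × Bool

instance Idx.fintype : ∀ d, Fintype (Idx d)
  | 0 => inferInstanceAs (Fintype Unit)
  | (d+1) => by
    haveI := Idx.fintype d
    exact inferInstanceAs (Fintype (Idx d × Bool))

instance Idx.decEq : ∀ d, DecidableEq (Idx d)
  | 0 => inferInstanceAs (DecidableEq Unit)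
  | (d+1) => by
    haveI := Idx.decEq d
    exact inferInstanceAs (DecidableEq (Idx d × Bool))

theorem Idx.card (d : ℕ) : Fintype.card (Idx d) = 2 ^ d := by
  induction d with
  | zero => rfl
  | succ d ih =>
    have : Fintype.card (Idx (d+1)) = Fintype.card (Idx d × Bool) := rfl
    rw [this, Fintype.card_prod, ih, Fintype.card_bool, pow_succ]

/-- the element of `Idx (d+1)` determined by an element of `Idx d` and a boolean -/
def pr {d : ℕ} (i : Idx d) (b : Bool) : Idx (d+1) := (i, b)

/-- first projection -/
def prFst {d : ℕ} (i : Idx (d+1)) : Idx d := i.1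

/-- second projection -/
def prSnd {d : ℕ} (i : Idx (d+1)) : Bool := i.2

@[simp] theorem prFst_pr {d : ℕ} (i : Idx d) (b : Bool) : prFst (pr i b) = i := rfl

@[simp] theorem prSnd_pr {d : ℕ} (i : Idx d) (b : Bool) : prSnd (pr i b) = b := rfl

theorem pr_surj {d : ℕ} (i : Idx (d+1)) : ∃ j b, i = pr j b := ⟨i.1, i.2, rfl⟩

theorem pr_inj {d : ℕ} {i j : Idx d} {b c : Bool} (h : pr i b = pr j c) : i = j ∧ b = c :=
  ⟨congrArg prFst h, congrArg prSnd h⟩

theorem idx_sum_succ {d : ℕ} {M : Type*} [AddCommMonoid M] (f : Idx (d+1) → M) :
    ∑ i, f i = ∑ i : Idx d, (f (pr i false) + f (pr i true)) := by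
  have h1 : ∑ i, f i = ∑ i : Idx d × Bool, f (pr i.1 i.2) := rfl
  rw [h1, Fintype.sum_prod_type]
  apply Finset.sum_congr rfl
  intro i _
  rw [Fintype.sum_bool, add_comm]

/-- unique element of `Idx 0` -/
def pt : Idx 0 := ()

theorem eq_pt (i : Idx 0) : i = pt := rfl

theorem idx_sum_zero {M : Type*} [AddCommMonoid M] (f : Idx 0 → M) :
    ∑ i, f i = f pt := Fintype.sum_unique (ι := Unit) f

/-- The commutator `δ_d` in `2 ^ d` variables: `δ_0 (x) = x` and
`δ_{d+1} (x) = [δ_d (x_left), δ_d (x_right)]` -/
def delta : (d : ℕ) → (Idx d → L) → L
  | 0, x => x pt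
  | (d+1), x => delta d (fun i => ⁅x (pr i false), x (pr i true)⁆)

theorem delta_zero (x : Idx 0 → L) : delta 0 x = x pt := rfl

theorem delta_succ (d : ℕ) (x : Idx (d+1) → L) :
    delta (d+1) x = delta d (fun i => ⁅x (pr i false), x (pr i true)⁆) := rfl

theorem inner_update_false {d : ℕ} (x : Idx (d+1) → L) (i : Idx d) (u : L) :
    (fun j : Idx d => ⁅Function.update x (pr i false) u (pr j false),
      Function.update x (pr i false) u (pr j true)⁆) =
    Function.update (fun j : Idx d => ⁅x (pr j false), x (pr j true)⁆) i ⁅u, x (pr i true)⁆ := by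
  funext j
  by_cases h : j = i
  · subst h
    rw [Function.update_self, Function.update_self, Function.update_of_ne]
    intro h; exact Bool.noConfusion (pr_inj h).2
  · rw [Function.update_of_ne h, Function.update_of_ne, Function.update_of_ne]
    · intro h'; exact h (pr_inj h').1
    · intro h'; exact h (pr_inj h').1

theorem inner_update_true {d : ℕ} (x : Idx (d+1) → L) (i : Idx d) (u : L) :
    (fun j : Idx d => ⁅Function.update x (pr i true) u (pr j false),
      Function.update x (pr i true) u (pr j true)⁆) =
    Function.update (fun j : Idx d => ⁅x (pr j false), x (pr j true)⁆) i ⁅x (pr i false), u⁆ := by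
  funext j
  by_cases h : j = i
  · subst h
    rw [Function.update_self, Function.update_self, Function.update_of_ne]
    intro h; exact Bool.noConfusion (pr_inj h).2
  · rw [Function.update_of_ne h, Function.update_of_ne, Function.update_of_ne]
    · intro h'; exact h (pr_inj h').1
    · intro h'; exact h (pr_inj h').1

theorem delta_update_add (d : ℕ) : ∀ (x : Idx d → L) (i : Idx d) (u v : L),
    delta d (Function.update x i (u + v)) =
      delta d (Function.update x i u) + delta d (Function.update x i v) := by
  induction d with
  | zero =>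
    intro x i u v
    rw [delta_zero, delta_zero, delta_zero, eq_pt i, Function.update_self, Function.update_self,
      Function.update_self]
  | succ d ih =>
    intro x i u v
    obtain ⟨i, b, rfl⟩ := pr_surj i
    cases b
    · rw [delta_succ, delta_succ, delta_succ, inner_update_false, inner_update_false,
        inner_update_false, add_lie, ih]
    · rw [delta_succ, delta_succ, delta_succ, inner_update_true, inner_update_true,
        inner_update_true, lie_add, ih]

theorem delta_update_smul (d : ℕ) : ∀ (x : Idx d → L) (i : Idx d) (n : ℤ) (u : L),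
    delta d (Function.update x i (n • u)) = n • delta d (Function.update x i u) := by
  induction d with
  | zero =>
    intro x i n u
    rw [delta_zero, delta_zero, eq_pt i, Function.update_self, Function.update_self]
  | succ d ih =>
    intro x i n u
    obtain ⟨i, b, rfl⟩ := pr_surj i
    cases b
    · rw [delta_succ, delta_succ, inner_update_false, inner_update_false, zsmul_lie, ih]
    · rw [delta_succ, delta_succ, inner_update_true, inner_update_true, lie_zsmul, ih]

/-- `delta` as a multilinear map. -/
def deltaM (d : ℕ) : MultilinearMap ℤ (fun _ : Idx d => L) L where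
  toFun := delta d
  map_update_add' := by
    intro inst x i u v
    have : inst = Idx.decEq d := Subsingleton.elim _ _
    subst this
    exact delta_update_add d x i u v
  map_update_smul' := by
    intro inst x i n u
    have : inst = Idx.decEq d := Subsingleton.elim _ _
    subst this
    exact delta_update_smul d x i n u

theorem delta_sum (d : ℕ) {α : Type*} [Fintype α] [DecidableEq α] (y : Idx d → α → L) :
    delta d (fun i => ∑ j, y i j) = ∑ k : Idx d → α, delta d (fun i => y i (k i)) :=
  (deltaM d).map_sum y

theorem delta_mem (d : ℕ) : ∀ (X : Fam (ZMod p) L),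
    (∀ a b x y, x ∈ X a → y ∈ X b → ⁅x, y⁆ ∈ X (a + b)) → ∀ (e : Idx d → ZMod p) (x : Idx d → L),
    (∀ i, x i ∈ X (e i)) → delta d x ∈ X (∑ i, e i) := by
  induction d with
  | zero =>
    intro X _ e x hx
    rw [idx_sum_zero]
    exact hx pt
  | succ d ih =>
    intro X hX e x hx
    rw [delta_succ, idx_sum_succ]
    exact ih X hX _ _ (fun i => hX _ _ _ _ (hx _) (hx _))

/-- independence of a family of degrees with respect to a set `R` of multipliers. -/
def Indep (R : Finset (ZMod p)) {ι : Type*} [Fintype ι] (e : ι → ZMod p) : Prop :=
  ∀ k : ι → ZMod p, (∀ i, k i ∈ R) → ∑ i, k i * e i = ∑ i, e i → ∀ i, k i = 1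

/-- selective solvability -/
def Sel (R : Finset (ZMod p)) (d : ℕ) (X : Fam (ZMod p) L) : Prop :=
  ∀ e : Idx d → ZMod p, Indep R e → ∀ x : Idx d → L, (∀ i, x i ∈ X (e i)) → delta d x = 0

/-- mixed independence -/
def IndJ (R : Finset (ZMod p)) {ι : Type*} [Fintype ι] (J : Finset ι) (e0 e1 : ι → ZMod p) :
    Prop :=
  ∀ k0 k1 : ι → ZMod p, (∀ i, k0 i ∈ R) → (∀ i, k1 i ∈ R) → (∀ i ∈ J, k0 i = k1 i) →
    ∑ i, (k0 i * e0 i + k1 i * e1 i) = ∑ i, (e0 i + e1 i) → ∀ i, k0 i = 1 ∧ k1 i = 1

theorem sel_mixed [Fact p.Prime] (R : Finset (ZMod p)) (q : ℕ) (hR : R.card ≤ q) (d : ℕ)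
    (X : Fam (ZMod p) L) (hX : IsSub X) (hSel : Sel R (d+1) X) (J : Finset (Idx d)) :
    ∀ e0 e1 : Idx d → ZMod p, IndJ R J e0 e1 → ∀ x : Idx d → L,
      (∀ i ∈ J, x i ∈ der X (sBound (q ^ (2 * 2 ^ d)) + 1) (e0 i + e1 i)) →
      (∀ i ∉ J, ∃ y ∈ X (e0 i), ∃ z ∈ X (e1 i), x i = ⁅y, z⁆) → delta d x = 0 := by
  induction J using Finset.induction_on with
  | empty =>
    intro e0 e1 hind x _ hx
    choose y hy z hz hxyz using fun i => hx i (by simp)
    have h := hSel (fun i => if prSnd i then e1 (prFst i) else e0 (prFst i)) ?_
      (fun i => if prSnd i then z (prFst i) else y (prFst i)) ?_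
    · rw [delta_succ] at h
      simp only [prSnd_pr, prFst_pr, Bool.false_eq_true, if_false, if_true] at h
      have e : x = fun i => ⁅y i, z i⁆ := funext hxyz
      rw [e]; exact h
    · intro k hk hsum
      rw [idx_sum_succ, idx_sum_succ] at hsum
      simp only [prSnd_pr, prFst_pr, Bool.false_eq_true, if_false, if_true] at hsum
      have h3 := hind (fun i => k (pr i false)) (fun i => k (pr i true)) (fun i => hk _)
        (fun i => hk _) (by simp) hsum
      intro i
      obtain ⟨i, b, rfl⟩ := pr_surj i
      cases b
      · exact (h3 i).1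
      · exact (h3 i).2
    · intro i
      obtain ⟨i, b, rfl⟩ := pr_surj i
      cases b
      · simpa using hy i
      · simpa using hz i
  | insert j J hjJ ih =>
    intro e0 e1 hind x hxJ hx
    set s := sBound (q ^ (2 * 2 ^ d)) + 1 with hs
    set a := e0 j + e1 j with ha
    -- bad degrees
    set K : Finset ((Idx d → ZMod p) × (Idx d → ZMod p)) :=
      (Fintype.piFinset fun _ => R) ×ˢ (Fintype.piFinset fun _ => R) with hK
    set f : (Idx d → ZMod p) × (Idx d → ZMod p) → ZMod p := fun k =>
      (∑ i ∈ Finset.univ.erase j, ((1 - k.1 i) * e0 i + (1 - k.2 i) * e1 i) + (1 - k.1 j) * a) /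
        (k.2 j - k.1 j) with hf
    set Bad : Finset (ZMod p) := K.image f with hBad
    have hBadcard : Bad.card ≤ q ^ (2 * 2 ^ d) := by
      refine Finset.card_image_le.trans ?_
      rw [hK, Finset.card_product, Fintype.card_piFinset]
      simp only [Finset.prod_const, Finset.card_univ, Idx.card]
      rw [← pow_add, ← two_mul]
      exact Nat.pow_le_pow_left hR _
    have key : ∀ w ∈ der X s a, delta d (Function.update x j w) = 0 := by
      intro w hw
      have hw' := avoid_comm (q ^ (2 * 2 ^ d)) X hX Bad hBadcard a hw
      clear hw
      induction hw' using AddSubgroup.closure_induction with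
      | mem w hw =>
        obtain ⟨b, c, hbc, hc, u, hu, v, hv, rfl⟩ := hw
        apply ih (Function.update e0 j b) (Function.update e1 j c)
        · -- independence
          intro k0 k1 hk0 hk1 hkJ hsum
          have hsplit : ∀ g : Idx d → ZMod p, ∑ i, g i = ∑ i ∈ Finset.univ.erase j, g i + g j :=
            fun g => (Finset.sum_erase_add _ _ (Finset.mem_univ j)).symm
          rw [hsplit, hsplit] at hsum
          have hne : ∀ i ∈ Finset.univ.erase j, i ≠ j := fun i hi => Finset.ne_of_mem_erase hi
          have hs1 : ∑ i ∈ Finset.univ.erase j,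
              (k0 i * Function.update e0 j b i + k1 i * Function.update e1 j c i) =
              ∑ i ∈ Finset.univ.erase j, (k0 i * e0 i + k1 i * e1 i) := by
            apply Finset.sum_congr rfl
            intro i hi
            rw [Function.update_of_ne (hne i hi), Function.update_of_ne (hne i hi)]
          have hs2 : ∑ i ∈ Finset.univ.erase j,
              (Function.update e0 j b i + Function.update e1 j c i) =
              ∑ i ∈ Finset.univ.erase j, (e0 i + e1 i) := by
            apply Finset.sum_congr rfl
            intro i hi
            rw [Function.update_of_ne (hne i hi), Function.update_of_ne (hne i hi)]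
          rw [hs1, hs2] at hsum
          simp only [Function.update_self] at hsum
          by_cases hkk : k0 j = k1 j
          · apply hind k0 k1 hk0 hk1
            · intro i hi
              rw [Finset.mem_insert] at hi
              rcases hi with rfl | hi
              · exact hkk
              · exact hkJ i hi
            · rw [hsplit, hsplit]
              have e : k0 j * e0 j + k1 j * e1 j = k0 j * b + k1 j * c := by
                rw [← hkk, ← mul_add, ← mul_add, hbc, ha]
              rw [e, hsum, hbc, ha]
          · exfalso
            apply hc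
            rw [hBad, Finset.mem_image]
            refine ⟨(k0, k1), ?_, ?_⟩
            · rw [hK, Finset.mem_product, Fintype.mem_piFinset, Fintype.mem_piFinset]
              exact ⟨hk0, hk1⟩
            · rw [hf]
              simp only
              rw [div_eq_iff (sub_ne_zero.mpr (Ne.symm hkk))]
              have e1' : ∑ i ∈ Finset.univ.erase j, ((1 - k0 i) * e0 i + (1 - k1 i) * e1 i) =
                  ∑ i ∈ Finset.univ.erase j, (e0 i + e1 i) -
                  ∑ i ∈ Finset.univ.erase j, (k0 i * e0 i + k1 i * e1 i) := by
                rw [← Finset.sum_sub_distrib]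
                apply Finset.sum_congr rfl
                intro i _
                ring
              rw [e1']
              have hb : b = a - c := by rw [← hbc]; ring
              rw [hb] at hsum
              linear_combination (-1 : ZMod p) * hsum
        · intro i hi
          have hij : i ≠ j := by rintro rfl; exact hjJ hi
          rw [Function.update_of_ne hij, Function.update_of_ne hij, Function.update_of_ne hij]
          exact hxJ i (Finset.mem_insert_of_mem hi)
        · intro i hi
          by_cases hij : i = j
          · subst hij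
            rw [Function.update_self, Function.update_self, Function.update_self]
            exact ⟨u, hu, v, hv, rfl⟩
          · rw [Function.update_of_ne hij, Function.update_of_ne hij, Function.update_of_ne hij]
            apply hx i
            rw [Finset.mem_insert]
            exact fun h => h.elim hij hi
      | zero =>
        have := (deltaM d).map_update_zero x j
        exact this
      | add u v _ _ hu hv => rw [delta_update_add, hu, hv, add_zero]
      | neg u _ hu =>
        have := delta_update_smul d x j (-1) u
        rw [neg_one_smul] at this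
        rw [this, hu, smul_zero]
    have := key (x j) (hxJ j (Finset.mem_insert_self _ _))
    rwa [Function.update_eq_self] at this

/-- bound for the derived length -/
def NBound (q : ℕ) : ℕ → ℕ
  | 0 => 0
  | (d+1) => (sBound (q ^ (2 * 2 ^ d)) + 1) + NBound q d

theorem sel_solvable [Fact p.Prime] (R : Finset (ZMod p)) (q : ℕ) (hR : R.card ≤ q) (d : ℕ) :
    ∀ (X : Fam (ZMod p) L), IsSub X → Sel R d X → ∀ a, ∀ x ∈ der X (NBound q d) a, x = 0 := by
  induction d with
  | zero =>
    intro X hX hSel a x hx
    by_cases ha : a = 0
    · subst ha; exact hX.zero x hx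
    · have := hSel (fun _ => a) ?_ (fun _ => x) (fun _ => hx)
      · exact this
      · intro k _ hsum i
        have hi : i = () := rfl
        subst hi
        have h1 : ∑ i : Idx 0, k i * a = k () * a :=
          Fintype.sum_unique (ι := Unit) (fun i => k i * a)
        have h2 : ∑ i : Idx 0, a = a := Fintype.sum_unique (ι := Unit) (fun i => a)
        rw [h1, h2] at hsum
        have : k () * a = 1 * a := by rw [hsum, one_mul]
        exact mul_right_cancel₀ ha this
  | succ d ih =>
    intro X hX hSel a x hx
    simp only [NBound] at hx
    rw [der_add] at hx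
    apply ih (der X (sBound (q ^ (2 * 2 ^ d)) + 1)) (hX.der _) _ a x hx
    intro e he y hy
    apply sel_mixed R q hR d X hX hSel Finset.univ e 0 _ y
    · intro i _
      simpa using hy i
    · intro i hi
      exact absurd (Finset.mem_univ i) hi
    · intro k0 k1 hk0 _ hk hsum i
      simp only [Pi.zero_apply, mul_zero, add_zero] at hsum
      have h := he k0 hk0 hsum
      exact ⟨h i, by rw [← hk i (Finset.mem_univ i)]; exact h i⟩

end Pool.Agent.Lib.MP_2b9f9a_al
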